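import Pool.Agent.Lib.AP14.BlueA
import Pool.Agent.Lib.RAA.B_A6c

/-! Project ra2, row A6c: the inequality for the classes above `η`. -/

open scoped Topology ComplexOrder Matrix
open Set MeasureTheory Metric Filter

noncomputable section

namespace Pool.Agent.Lib.AP14

open Pool.Agent.Lib.SV (E)
open Pool.Agent.Lib.HS32 Pool.Agent.Lib.RA Pool.Agent.Lib.RAA

theorem int_aj {n : ℕ} {M : Mf n} [M.Cpt] {G T : M.Fam (Mat n)} (hG : M.Met G) (hT : M.Met T)
    (Q : M.Fam (Mat n)) : ∫ x, pa M G (aj M T) Q x ∂M.mu G = ∫ x, M.tr T Q x ∂M.mu T := by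
  rw [chg hG hT]
  exact integral_congr_ae (ae_of_all _ fun x => pq_ad hG hT Q x)

theorem st_A6c (A6r : St_A6r) (A6a : St_A6a) : St_A6c := by
  intro n ρ M _ G T η θ q V σ C hG hT hη hA hL hC hQ
  refine le_of_forall_pos_le_add fun δ hδ => ?_
  obtain ⟨u, P, hu, hK, hP, P0, hR, hi⟩ := hA T hT hη (δ / (ρ + 1)) (by positivity)
  have h := A6r n ρ M G _ P q V σ C hG hK hP P0 hR hL hC hQ
  rw [A6a n M G _ _ V _ σ u hG.toMet hT hL.toAn hQ hu hK,
    A6a n M G _ _ V _ σ u hG.toMet hT hL.toAn (A6c.qf_kae hG V σ) hu hK,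
    mCOH n M G _ u hG.toMet hT.toClo hu, int_aj hG.toMet hK.toMet P] at h
  rw [int_aj hG.toMet hT.toMet θ]
  have h1 := mul_le_mul_of_nonneg_left hi (Nat.cast_nonneg (α := ℝ) ρ)
  have h2 : ρ * (δ / (ρ + 1)) ≤ δ := by
    rw [← mul_div_assoc, div_le_iff₀ (by positivity)]
    linarith
  linarith

end Pool.Agent.Lib.AP14
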