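import Pool.Agent.Lib.AP14.BlueA
import Pool.Agent.Lib.RAA.B_A6r

/-! Project ra2, row A6r: the inequality for one metric, with an error term. -/

open scoped Classical Topology ContDiff ComplexOrder Matrix
open Set MeasureTheory Complex Metric Filter

set_option linter.unusedVariables false

noncomputable section

namespace Pool.Agent.Lib.AP14

open Pool.Agent.Lib.SV (E)
open Pool.Agent.Lib.HS32 Pool.Agent.Lib.RA Pool.Agent.Lib.RAA

open A6r in
theorem st_A6r (hTOP : RA.St_TOP) (hCHI : St_CHI) (hA4 : St_A4s) (hCQ : St_CQ) (hPSI : St_PSI)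
    (hm : St_A6m) (hb : St_A6b) : St_A6r := by
  intro n ρ M _ G T P q V σ C hG hT hP P0 hR hL hq hQ
  obtain ⟨q', C', -, hq', hQ'⟩ := hCQ n ρ M V σ T hL hT
  obtain ⟨ψ, C₁, hψ⟩ := hPSI n ρ M V σ G T q q' hL hG.toMet hT.toMet hq hq'
  obtain ⟨hO, h0, -⟩ := (hCHI n M G V hG.toMet).2.2 _ σ hL.toAn
  have hae : ∀ᵐ x ∂M.mu G, x ∈ gd M V σ := h0
  have i1 := (hm n M G T _ V _ σ hG.toMet hT hL.toAn hQ).1
  have i2 := (hm n M G T _ V _ σ hG.toMet hT hL.toAn hQ').1
  have iG := int_sm hTOP hG hT hG.toTen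
  have iT := int_sm hTOP hG hT hT.toTen
  have iP := int_sm hTOP hG hT hP.toTen
  have j1 : Integrable (pa M G (aj M T) q) (M.mu G) :=
    (i1.sub (iG.const_mul C)).congr (ae_of_all _ fun x => by simp [pa_lin])
  have j2 : Integrable (pa M G (aj M T) q') (M.mu G) :=
    (i2.sub (iT.const_mul C')).congr (ae_of_all _ fun x => by simp [pa_lin])
  have e1 : (fun x => pa M G (aj M T) q' x - pa M G (aj M T) q x) =ᵐ[M.mu G]
      pa M G (aj M T) (M.hs ψ) := hae.mono fun x hx => by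
    have := KA.at_ch (hψ x hx).2.2
    beta_reduce
    rw [← pa_sub]
    simp only [pa, Mf.ev, this]
  have z := hb n M G T V _ σ ψ C₁ hG.toMet hT hL.toAn (fun x hx => ⟨(hψ x hx).1, (hψ x hx).2.1⟩)
    ((j2.sub j1).congr e1)
  rw [← integral_congr_ae e1, integral_sub j2 j1] at z
  obtain ⟨-, -, rq, sq, -⟩ := (mINV n M G hG.toMet).1 T hT.toTen
  have iq : Integrable (M.dq G T) (M.mu G) :=
    (mMU n M G hG.toMet).2.2.2.2.1 ℝ _ sq.continuous
  have le : ∫ x, -(ρ * (M.dq G T x + pa M G (aj M T) P x)) ∂M.mu G ≤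
      ∫ x, pa M G (aj M T) q' x ∂M.mu G := by
    refine integral_mono_ae ((iq.add iP).const_mul _).neg j2 (hae.mono fun x hx => ?_)
    obtain ⟨a, h1, h2, h3⟩ := id hx
    have he := V.mem a
    have ht := (V.e a).map_source h1
    have k := hA4 n ρ (T (V.e a)) (P (V.e a) (V.e a x)) (σ a) _ (hT.sm.at he h1)
      (hT.pos.ev he ht) (KA.holN_of_on isOpen_ball (hL.hol a) h2) h3 ((hT.sm.and hT.cl).ev he ht)
      (by simpa using P0.at he h1) (by simpa [Mf.ric, sub_eq_add_neg] using hR.at he h1)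
    have p := ((hTOP n 0 0 M G _ hG hO).2.2.2 _ _ (den hTOP hG hT hO) hq'.ten x hx).2 _ he h1
    have p' := ((hTOP n 0 0 M G _ hG hO).2.2.2 _ _ (den hTOP hG hT hO) (tenOn hP.toTen _) x
      hx).2 _ he h1
    have g := hG.pos.at he h1
    beta_reduce at p p' ⊢
    rw [p, p', rq.at he h1, hq'.eq a _ h2 h3, ← Mf.herm_det g.1, div_ofReal_re, div_ofReal_re,
      div_ofReal_re, ← add_div, ← mul_div_assoc, ← neg_div]
    exact div_le_div_of_nonneg_right k (Mf.pd_det_re g).le
  rw [integral_neg, integral_const_mul, integral_add iq iP] at le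
  simp only [pa_lin]
  rw [integral_add (iG.const_mul C) j1, integral_const_mul]
  linarith

end Pool.Agent.Lib.AP14
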