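import Pool.Agent.Lib.AP14.K81

/-! Project ra2, step A: the defect does not depend on the metric. -/

open scoped Classical Topology ContDiff ComplexOrder Matrix
open Set MeasureTheory Complex Metric Filter

set_option linter.unusedVariables false

noncomputable section

namespace Pool.Agent.Lib.AP14

open Pool.Agent.Lib.SV (E)
open Pool.Agent.Lib.HS32 Pool.Agent.Lib.RA Pool.Agent.Lib.RAA

theorem K81.hl_cross {n : ℕ} {f f' U U' : E n → ℝ} {z : E n} (hf : ContDiffAt ℝ ∞ f z)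
    (hf' : ContDiffAt ℝ ∞ f' z) (hU : ContDiffAt ℝ ∞ U z) (hU' : ContDiffAt ℝ ∞ U' z)
    (f0 : f z ≠ 0) (U0 : U z ≠ 0) (U0' : U' z ≠ 0) (e : ∀ᶠ w in 𝓝 z, f' w * U w = f w * U' w) :
    f' z ≠ 0 ∧ hl f' z - hl U' z = hl f z - hl U z := by
  have f0' : f' z ≠ 0 := fun h => by
    have := e.self_of_nhds
    rw [h, zero_mul] at this
    exact mul_ne_zero f0 U0' this.symm
  refine ⟨f0', ?_⟩
  unfold hl
  rw [← hess_sub (cd_ofReal (hf'.log f0')) (cd_ofReal (hU'.log U0')),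
    ← hess_sub (cd_ofReal (hf.log f0)) (cd_ofReal (hU.log U0))]
  refine hess_congr ?_
  filter_upwards [e, hf.continuousAt.eventually_ne f0, hf'.continuousAt.eventually_ne f0',
    hU.continuousAt.eventually_ne U0, hU'.continuousAt.eventually_ne U0'] with w h a b c d
  have h1 := congrArg Real.log h
  rw [Real.log_mul b c, Real.log_mul a d] at h1
  rw [← ofReal_sub, ← ofReal_sub]
  congr 1
  linarith

theorem st_IND (hO : St_ORD) (hN : St_NF) (hF : St_FB1) (hFL : St_FL) (hA4 : St_A4)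
    (hS : St_SPN) : St_IND := by
  intro n r ρ m M _ G G' q q' φ f f' V F σ h h' ho hf hf' hl hq hq' x hgd hX f0
  obtain ⟨a, hxs, hz, hσ⟩ := id hgd
  have he := V.mem a
  have po := hl.po a
  set e := V.e a with hee
  set z := e x with hez
  have hzt : z ∈ e.target := e.map_source hxs
  have hx : e.symm z = x := e.left_inv hxs
  obtain ⟨o1, o2⟩ := (hO n r M G φ h).2.2 e _ _ (F a) po
  have loc := o2 ρ m ho
  have hrk : (Gm (F a) (dg z)).rank = r := by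
    rw [o1 z hz, hez, ← KA.rank_ev (K81.clo h).toTen he hxs]
    exact hX
  obtain ⟨J, hJ0⟩ := (hS n).2.1 r _ (loc.psd z hz).1 hrk
  obtain ⟨B, hB⟩ := hN n r ρ m (F a) _ _ z J loc hz hJ0
  obtain ⟨f1, f2, -⟩ := hF n r ρ m M G φ f h ho hf
  obtain ⟨f1', f2', -⟩ := hF n r ρ m M G' φ f' h' ho hf'
  have hbl : bl M V a ∈ 𝓝 z := isOpen_ball.mem_nhds hz
  have hol := KA.holN_of_on isOpen_ball (hl.hol a) hz
  have u1 := (hA4 n ρ).1 (G e) (σ a) z (h.kae.sm e he z hzt) (h.kae.pos.ev he hzt) hol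
  have u2 := (hA4 n ρ).1 (G' e) (σ a) z (h'.kae.sm e he z hzt) (h'.kae.pos.ev he hzt) hol
  have cr : ∀ᶠ w in 𝓝 z, f' (e.symm w) * un ρ (G e) (σ a) w =
      f (e.symm w) * un ρ (G' e) (σ a) w := by
    filter_upwards [(f1 e _ _ (F a) po z hz).1 J B hJ0 hB, (f1' e _ _ (F a) po z hz).1 J B hJ0 hB,
      hbl, hB.line, h.kae.pos.ev he hzt, h'.kae.pos.ev he hzt,
      ((hl.hol a).differentiableAt hbl).continuousAt.eventually_ne hσ]
      with w h1 h1' hw h3 h5 h5' h6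
    obtain ⟨y, h7, h8⟩ := hl.mem a w hw
    choose b hb using h3 y h7 (h8 ▸ h6)
    have h9 : B (pJ (F a) J w) = Matrix.vecMulVec b (σ a w) := by
      ext g K'
      rw [Matrix.vecMulVec_apply, hb g, h8]
      rfl
    have h4 : (hJ (F a) J w).IsHermitian := ((loc.psd w hw).submatrix J).1
    rw [h1, h1', h9, (hFL n ρ m (Fin r) (Fin r)).2.2.2.1 _ _ _ _ h4 h5.inv.1,
      (hFL n ρ m (Fin r) (Fin r)).2.2.2.1 _ _ _ _ h4 h5'.inv.1, un, un,
      Matrix.transpose_nonsing_inv, Matrix.transpose_nonsing_inv]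
    ring
  obtain ⟨k1, k2⟩ := K81.hl_cross (f := fun w => f (e.symm w)) (f' := fun w => f' (e.symm w))
    (f2 x hX e he hxs) (f2' x hX e he hxs) u1.1 u2.1 (by rwa [hx]) (u1.2.2.1.2 hσ)
    (u2.2.2.1.2 hσ) cr
  rw [hx] at k1
  refine ⟨k1, ?_⟩
  have hc := Mf.ch_mem (M := M) x
  have hxc := Mf.mem_ch (M := M) x
  have t : ∀ {G₁ q₁ : M.Fam (Mat n)} {f₁ : M.X → ℝ}, Cq M V ρ σ G₁ q₁ → SmAt M f₁ x → f₁ x ≠ 0 →
      M.ev (hg M f₁ - q₁) x = (M.J e (M.ch x) x)ᴴ *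
        (RAA.hl (fun w => f₁ (e.symm w)) z - RAA.hl (un ρ (G₁ e) (σ a)) z) * M.J e (M.ch x) x := by
    intro G₁ q₁ f₁ c s n0
    have a1 := KA.hs_cmp (KA.smAt_comp (K := Real.log) (Real.contDiffAt_log.2 n0) s) he hc hxs hxc
    have a2 := c.ten.cmp e he _ hc x hxs hxc hgd
    rw [← c.eq a z hz hσ]
    show hg M f₁ (M.ch x) (M.ch x x) - q₁ (M.ch x) (M.ch x x) = _ * (hg M f₁ e z - q₁ e z) * _
    rw [Matrix.mul_sub, Matrix.sub_mul, ← a2]
    exact congrArg (· - _) a1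
  rw [t hq' (f2' x hX) k1, t hq (f2 x hX) f0, k2]

end Pool.Agent.Lib.AP14
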