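import Pool.Agent.Lib.AP14.B_PL0
import Pool.Agent.Lib.HS.All
import Pool.Agent.Lib.KP.B_KLI

/-! Project ra2, step A: the twisted metrics, without hypotheses. -/

namespace Pool.Agent.Lib.AP14

theorem aAYP : St_AYP := st_AYP HS.asAUBIN (KP.st_PSI1 KP.st_NHS) KP.st_KLI st_ERR

end Pool.Agent.Lib.AP14
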