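import Pool.Agent.Lib.AP14.K81

/-! Project ra2, step A: the assembly. -/

open scoped Classical Topology ContDiff ComplexOrder Matrix ENNReal
open Set MeasureTheory Complex Metric Filter

set_option linter.unusedVariables false

noncomputable section

namespace Pool.Agent.Lib.AP14

open Pool.Agent.Lib.SV (E)
open Pool.Agent.Lib.HS32 Pool.Agent.Lib.RA Pool.Agent.Lib.RAA RAA.Q81

theorem st_A0 (hO : St_ORD) (hL : St_LN) (hQ : St_CQ) (hG : St_FG) (h1 : St_FB1) (hP : St_POS)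
    (hE : St_LIMT) (hK : St_KER) (hS : St_SPN) (hC : St_CHI) (hR : St_RIC) : St_A0 := by
  intro n M _ G Y θ φ r h hr hθ hA hY h0 hex hs
  obtain ⟨⟨ρ, m, ho⟩, -, o3⟩ := hO n r M G φ h
  obtain ⟨V, F, σ, hl⟩ := hL n r ρ m M G φ h ho
  obtain ⟨q, C, C0, hq, hqf⟩ := hQ n ρ M V σ G hl.toLn h.kae
  obtain ⟨f, hf⟩ := hG n r ρ m M G φ h ho
  obtain ⟨hW, ha⟩ := gs_good hC h1 h ho hf hl.toAn
  have := (mMU n M G h.kae.toMet).2.2.1
  have hU := K81.open_pos h.kae.toMet hY h0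
  obtain ⟨x, hp, hx⟩ := (Measure.dense_of_ae ha).inter_open_nonempty _ hU hex
  obtain ⟨a, s, b, c⟩ := hx.1
  obtain ⟨g1, g2⟩ := o3 _ _ _ _ (hl.po a)
  have lc := g2 ρ m ho
  have rk : (Gm (F a) (dg (V.e a x))).rank = r := by
    rw [g1 _ b, ← KA.rank_ev (K81.clo h).toTen (V.mem a) s]; exact hx.2.1
  obtain ⟨J, hJ0⟩ := (hS n).2.1 r _ (lc.psd _ b).isHermitian rk
  have bo : bl M V a ∈ 𝓝 (V.e a x) := isOpen_ball.mem_nhds b
  have bd : ball (dg (V.c a)) (4 * V.ρ a) ∈ 𝓝 (dg (V.e a x)) :=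
    isOpen_ball.mem_nhds (PK.dg_mem_ball.2 b)
  have sm := (hR n r (F a) (V.e a x) 0 J (PK.hn_of_on isOpen_ball lc.hol (PK.dg_mem_ball.2 b))
    (mem_of_superset bo lc.real)
    (mem_of_superset bd lc.rk) hJ0 (Matrix.mulVec_zero _)).1
  have e1 : ∀ᶠ w in 𝓝 (V.e a x), (hJ (F a) J w).det ≠ 0 :=
    ((continuous_id.matrix_det.continuousAt).comp (continuousAt_pi.2 fun i => continuousAt_pi.2
      fun j => (sm i j).continuousAt)).eventually_ne hJ0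
  have e2 : ∀ᶠ w in 𝓝 (V.e a x), σ a w ≠ 0 :=
    ((hl.hol a).differentiableAt bo).continuousAt.eventually_ne c
  have e3 := (KA.ev_iff s).1 (hW.eventually_mem hx)
  have e4 := (KA.ev_iff s).1 (hU.eventually_mem hp)
  have k := hK n r (F a) _ _ _ J lc.hol lc.rk b hJ0 (by
    filter_upwards [bo, e1, e2, e3, e4] with w w0 w1 w2 w3 w4
    exact (hP n r ρ m M G q φ f V F σ h ho hf hl hq a w w0 w2 w3.2.1 w3.2.2 Y w4).2
      (hE n r ρ m M G Y θ q φ f V F σ hr h ho hf hl hq hθ hA hY h0 hs _ w3.1 w3.2.1 w3.2.2 w4)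
      J w1)
  obtain ⟨y, y1, y2⟩ := hl.mem a _ b
  have le : ρ ≤ r := ((hS n).2.2.2 ρ _ y y1 (y2 ▸ c)).1.trans k
  intro e he c' R Φ sb pz
  exact ⟨pz.hol, fun z hz => by rw [pz.eq z hz, ofReal_im],
    ((hS n).1 Φ c' R pz.hol).2 r fun z hz => (ho.dim e c' R Φ ⟨he, sb, pz⟩ z hz).trans le⟩

end Pool.Agent.Lib.AP14
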