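import Pool.Agent.Lib.AP14.Blue

/-! Project ra2, row ADJ: inequalities for adjugates. -/

open scoped Classical Topology ContDiff ComplexOrder Matrix
open Matrix Finset

noncomputable section

namespace Pool.Agent.Lib.AP14

open Pool.Agent.Lib.HS32 Pool.Agent.Lib.HS32.Mf Pool.Agent.Lib.RA28 Pool.Agent.Lib.RAA.TTop

theorem st_ADJ : St_ADJ := by
  intro n r G W B K t hG hB hW hK hr K0 ⟨t0, t1⟩
  have pW : W.PosSemidef := by simpa using hW.add hB
  have pH : (W + t • G).PosDef := (pd_rsmul hG t0).posSemidef_add pW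
  have T := top pH hB hr
  obtain ⟨U, d, h⟩ := exists_fr hG pW
  have hg : 0 < G.det.re := pd_det_re hG
  have hd : ∀ i, d i ≤ K := by
    have := (h.psd_down (fun i => K - d i) (A := K • G - W) (by
      have := h.comb K (-1)
      rw [rs]
      simpa [sub_eq_add_neg] using this)).mp hK
    exact fun i => by linarith [this i]
  have hQ : ∀ l, ∏ k ∈ univ.erase l, (1 + d k) ≤ (1 + K) ^ n := fun l => by
    have : ∏ k, (1 + d k) ≤ ∏ _k : Fin n, (1 + K) :=
      prod_le_prod (fun k _ => by linarith [h.hd k]) fun k _ => by linarith [hd k]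
    exact (prod_sub_le _ d h.hd).trans (by simpa using this)
  have e : ∀ a s : ℝ, (s • W + a • G).adjugate =
      U * diagonal (fun l => ((G.det.re * ∏ k ∈ univ.erase l, (a + s * d k) : ℝ) : ℂ)) * Uᴴ :=
    fun a s => by
      rw [add_comm, rs, rs, h.adj_comb, up_smul]
      simp only [Complex.ofReal_mul, herm_det hG.1, Complex.ofReal_prod, Complex.ofReal_add]
  have e1 := e t 1
  have e2 := e 0 1
  have e3 := e 1 0
  simp only [one_smul, zero_smul, add_zero, zero_add, one_mul, zero_mul, prod_const_one,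
    mul_one] at e1 e2 e3
  have g := fun l => prod_gap (univ.erase l) d h.hd t0.le t1
  refine ⟨T.psd, ?_, ?_, ?_⟩
  · generalize hH : W + t • G = H at *
    have h0 := pd_det_ne pH
    have a1 := T.mono H (by
      have := hW.add (psd_rsmul hG.posSemidef t0.le)
      rwa [sub_add_eq_add_sub, hH] at this)
    rw [← two_smul ℂ H, det_smul, mul_div_cancel_right₀ _ h0, Fintype.card_fin,
      show (2 : ℂ) ^ n = ((2 ^ n : ℝ) : ℂ) by simp, Complex.ofReal_re] at a1
    have a2 : H.adjugate = H.det • H⁻¹ := by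
      rw [Matrix.inv_def, smul_smul, Ring.inverse_eq_inv', mul_inv_cancel₀ h0, one_smul]
    have a3 := T.le.add
      (psd_rsmul pH.inv.posSemidef (mul_nonneg (sub_nonneg.2 a1) (pd_det_re pH).le))
    have a4 : (2 ^ n : ℝ) • H.adjugate - topS r H B = topD r H B • H⁻¹ - topS r H B +
        ((2 ^ n - topA r H B) * H.det.re) • H⁻¹ := by
      rw [a2, T.dA, rs, rs, Complex.ofReal_mul, herm_det pH.1, Complex.ofReal_sub]
      module
    rwa [a4]
  · rw [e1, e2, e3, rs, up_smul, ← Matrix.add_mul, ← Matrix.mul_add, ← Matrix.sub_mul,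
      ← Matrix.mul_sub, diagonal_add, diagonal_sub]
    simp only [← Complex.ofReal_mul, ← Complex.ofReal_add, ← Complex.ofReal_sub]
    refine psd_up U _ fun l => ?_
    have := mul_le_mul_of_nonneg_left
      ((g l).2.2.trans (mul_le_mul_of_nonneg_left (hQ l) t0.le)) hg.le
    linarith
  · rw [e1, e3, rs, up_smul, ← Matrix.sub_mul, ← Matrix.mul_sub, diagonal_sub]
    simp only [← Complex.ofReal_mul, ← Complex.ofReal_sub]
    refine psd_up U _ fun l => ?_
    have := mul_le_mul_of_nonneg_left ((g l).2.1.trans (hQ l)) hg.le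
    linarith

end Pool.Agent.Lib.AP14
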