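import Pool.Agent.Lib.AP14.Blue
import Pool.Agent.Lib.HS.Top

/-! Project ra2, row AYP: the twisted metrics of Aubin. -/

open scoped Classical Topology ContDiff ComplexOrder Matrix
open Set MeasureTheory Complex Metric Filter

set_option linter.unusedVariables false

noncomputable section

namespace Pool.Agent.Lib.AP14

open Pool.Agent.Lib.SV (E)
open Pool.Agent.Lib.HS32 Pool.Agent.Lib.HS32.Mf

namespace AYP

variable {n : ℕ} {M : Mf n}

theorem lg [M.Cpt] (h1 : KP.St_PSI1) {T : M.Fam (Mat n)} (hT : M.Met T) {L : M.Co} {f : M.Fam ℂ}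
    {φ : M.Fam ℝ} (hf : M.HSecC L f) (hφ : M.WtC L φ) (h0 : ∃ x, M.nrC φ f x ≠ 0) :
    ∃ C C' K : ℝ, 0 < C ∧ Lg M T (M.nrC φ f) C' ∧
      (∀ d ∈ Ioc (0 : ℝ) 1, ∀ x, Real.log (M.nrC φ f x + d) ≤ K) ∧
      ∀ d : ℝ, 0 < d → M.All fun e z => (M.hw φ e z + M.hs (fun x => Real.log (M.nrC φ f x + d)) e z +
        (C * (d / (M.nrC φ f (e.symm z) + d))) • T e z).PosSemidef := by
  obtain ⟨C, C0, hC⟩ := h1 n M T L f φ hT hf hφ
  obtain ⟨D, D0, hD, -⟩ := (mBD n M T hT).1 _ hφ.clo.toForm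
  have hs := hφ.nr_sm hf.toSecC
  obtain ⟨K, -, hK⟩ := hs.exists_bound
  have nn := M.nrC_nonneg φ f
  refine ⟨C, D + C, K + 1, C0, ⟨by positivity, hs, nn, h0, fun d hd e he z hz => ?_⟩,
    fun d hd x => ?_, hC⟩
  · have h2 : 0 < M.nrC φ f (e.symm z) + d := add_pos_of_nonneg_of_pos (nn _) hd
    have h3 : 0 ≤ C - C * (d / (M.nrC φ f (e.symm z) + d)) := by
      rw [sub_nonneg]
      exact mul_le_of_le_one_right C0.le ((div_le_one h2).2 (by linarith [nn (e.symm z)]))
    have := ((hC d hd e he z hz).add (hD e he z hz)).add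
      (psd_rsmul (hT.pos e he z hz).posSemidef h3)
    convert this using 1
    simp only [Pi.add_apply, Pi.smul_apply, Pi.zero_apply]
    module
  · have h2 : 0 < M.nrC φ f x + d := add_pos_of_nonneg_of_pos (nn _) hd.1
    have := (le_abs_self _).trans (hK x)
    linarith [Real.log_le_sub_one_of_pos h2, hd.2]

/-- The function that represents the weight. -/
theorem base {T : M.Fam (Mat n)} (hT : M.Met T) {w : M.Fam ℝ} (hw : M.Wt 1 w) :
    ∃ F, M.Sm F ∧ M.All fun e z => M.hs F e z = M.hw w e z + M.ric T e z := by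
  have H := mHES n M
  have w1 := (mINV n M T hT).2.2.2.2.2.2.1
  obtain ⟨-, w2, w3⟩ := H.2.2.2.2.1 1 1 _ _ (-1) w1 w1
  obtain ⟨w4, -, w5⟩ := H.2.2.2.2.1 1 (-1 * 1) _ _ 1 hw w2
  rw [show (1 : ℝ) + -1 * 1 = 0 by norm_num] at w4
  obtain ⟨f1, f2⟩ := H.2.2.2.2.2.2.1 _ w4
  refine ⟨_, f1, fun e he z hz => ?_⟩
  have r3 : M.hs (M.ev (w + (-1 : ℝ) • fun e z => Real.log (T e z).det.re)) e z =
      M.hw (w + (-1 : ℝ) • fun e z => Real.log (T e z).det.re) e z := by
    refine hess_congr ?_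
    filter_upwards [f2.ev he hz] with y hy
    exact congrArg _ hy
  have r4 : M.ric T e z = -M.hw (fun e z => Real.log (T e z).det.re) e z := rfl
  beta_reduce
  rw [r3, (w5 e he z hz).1, (w3 e he z hz).2, r4, neg_one_smul]

end AYP

open AYP in
theorem st_AYP (AU : HS.St_AUBIN) (h1 : KP.St_PSI1) (hK : KP.St_KLI) (hE : St_ERR) : St_AYP := by
  intro n m M _ LB LE f g φ φB φE c hn hm hf hg wB wE sφ wK hc hl g0 T hT hη τ hτ
  have mT := hT.toMet
  have m1 : (1 : ℝ) ≤ m := by exact_mod_cast hm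
  set t : ℝ := 1 / m with ht
  have t0 : 0 < t := by positivity
  have t1 : t ≤ 1 := (div_le_one (by linarith)).2 m1
  have tm : t * m = 1 := by rw [ht]; field_simp
  have c0 : 0 < c := t0.trans hc
  have hfin := (mMU n M T mT).2.1
  obtain ⟨den, A, hA⟩ := hK n M T LB f φB c mT hf wB c0 hl
  obtain ⟨CB, CB', KB, b0, b1, b2, b3⟩ := lg h1 mT hf wB den.nonempty
  obtain ⟨CE, CE', KE, e0, e1, e2, e3⟩ := lg h1 mT hg wE (g0.imp fun x hx => nrC_ne.2 hx)
  have ww := ((mHES n M).2.2.2.2.1 _ _ _ _ t wK wK).2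
  rw [tm] at ww
  obtain ⟨F₀, f1, f2⟩ := base mT ww.1
  have f3 : M.All fun e z => M.hs F₀ e z =
      t • (M.hw φ e z - M.hw φB e z + M.hw φE e z) + M.ric T e z := fun e he z hz => by
    have a := sφ e he z hz
    have b := wB.sm e he z hz
    have b' : ContDiffAt ℝ ∞ (((-1 : ℝ) • φB) e) z := b.const_smul (-1 : ℝ)
    beta_reduce
    rw [f2 e he z hz, (ww.2 e he z hz).2, hw_add (a.sub b) (wE.sm e he z hz), sub_eq_add_neg φ,
      ← neg_one_smul ℝ φB, hw_add a b', hw_smul _ b, neg_one_smul, ← sub_eq_add_neg]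
  set lB : ℝ → M.X → ℝ := fun d x => Real.log (M.nrC φB f x + d) with hlB
  set lE : ℝ → M.X → ℝ := fun d x => Real.log (M.nrC φE g x + d) with hlE
  have sB : ∀ d, 0 < d → M.Sm (lB d) := fun d hd => sm_lg b1.sm b1.nn hd
  have sE : ∀ d, 0 < d → M.Sm (lE d) := fun d hd => sm_lg e1.sm e1.nn hd
  set F : ℝ → M.X → ℝ := fun d x => F₀ x + (t * lE d x - t * lB d x) with hF
  have sD : ∀ d, 0 < d → M.Sm fun x => t * lE d x - t * lB d x := fun d hd =>
    ((sE d hd).const_mul t).sub ((sB d hd).const_mul t)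
  have sF : ∀ d, 0 < d → M.Sm (F d) := fun d hd => f1.add (sD d hd)
  obtain ⟨BE, hBE⟩ := e1.low mT
  obtain ⟨C₁, hC₁⟩ := sup_le hT t0 (-∫ x, F₀ x ∂M.mu T + t * BE + t * ((M.mu T).real univ * KB))
  have lo : ∀ d ∈ Ioc (0 : ℝ) 1, -(-∫ x, F₀ x ∂M.mu T + t * BE + t * ((M.mu T).real univ * KB)) ≤
      ∫ x, F d x ∂M.mu T := fun d hd => by
    have iB := intg mT (sB d hd.1).continuous
    have iE := intg mT (sE d hd.1).continuous
    have a1 : ∫ x, lB d x ∂M.mu T ≤ (M.mu T).real univ * KB := by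
      rw [← smul_eq_mul, ← integral_const]
      exact integral_mono iB (integrable_const _) (b2 d hd)
    simp only [hF]
    rw [integral_add (intg mT f1.continuous) (intg mT (sD d hd.1).continuous),
      integral_sub (iE.const_mul t) (iB.const_mul t), integral_const_mul, integral_const_mul]
    have a2 := mul_le_mul_of_nonneg_left a1 t0.le
    have a3 := mul_le_mul_of_nonneg_left (hBE d hd.1) t0.le
    linarith
  obtain ⟨K₀, -, hK₀⟩ := f1.exists_bound
  have p1 : 1 < c * m := by rwa [ht, div_lt_iff₀ (by linarith)] at hc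
  have up : ∀ d ∈ Ioc (0 : ℝ) 1, ∫ x, Real.exp (c * m * F d x) ∂M.mu T ≤
      Real.exp (c * m * K₀ + c * KE) * A := fun d hd => by
    have q : ∀ x, (M.nrC φB f x + d) ^ (-c) = Real.exp (-c * lB d x) := fun x => by
      rw [Real.rpow_def_of_pos (add_pos_of_nonneg_of_pos (b1.nn x) hd.1), mul_comm]
    have a1 := hA d hd.1
    simp only [q] at a1
    refine le_trans ?_ (mul_le_mul_of_nonneg_left a1 (Real.exp_pos _).le)
    rw [← integral_const_mul]
    refine integral_mono (intg mT ((sF d hd.1).const_mul _).exp.continuous)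
      ((intg mT ((sB d hd.1).const_mul _).exp.continuous).const_mul _) fun x => ?_
    beta_reduce
    rw [← Real.exp_add, Real.exp_le_exp]
    have a2 := mul_le_mul_of_nonneg_left ((le_abs_self _).trans (hK₀ x)) (by linarith : 0 ≤ c * m)
    have a3 := mul_le_mul_of_nonneg_left (e2 d hd x) c0.le
    have a4 : c * m * F d x = c * m * F₀ x + (t * m) * (c * lE d x) - (t * m) * (c * lB d x) := by
      simp only [hF]; ring
    rw [a4, tm]
    linarith
  obtain ⟨dB, dB0, hdB⟩ := hE n M T _ CB' C₁ _ t (c * m) (τ / (2 * CB)) hT b1 t0 p1 (by positivity)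
  obtain ⟨dE, dE0, hdE⟩ := hE n M T _ CE' C₁ _ t (c * m) (τ / (2 * CE)) hT e1 t0 p1 (by positivity)
  obtain ⟨d, d0, d1, d2, d3⟩ : ∃ d : ℝ, 0 < d ∧ d ≤ 1 ∧ d ≤ dB ∧ d ≤ dE :=
    ⟨min 1 (min dB dE), by positivity, min_le_left _ _,
      (min_le_right _ _).trans (min_le_left _ _), (min_le_right _ _).trans (min_le_right _ _)⟩
  obtain ⟨v, hv, k1, hq⟩ := AU n M T (F d) t hn hT (sF d d0) t0
  have v1 := hC₁ v _ hv (sF d d0) k1 hq (lo d ⟨d0, d1⟩)
  have iB := hdB d ⟨d0, d2⟩ v _ hv (sF d d0) k1 hq v1 (up d ⟨d0, d1⟩)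
  have iE := hdE d ⟨d0, d3⟩ v _ hv (sF d d0) k1 hq v1 (up d ⟨d0, d1⟩)
  have pB : ∀ x, 0 < M.nrC φB f x + d := fun x => add_pos_of_nonneg_of_pos (b1.nn x) d0
  have pE : ∀ x, 0 < M.nrC φE g x + d := fun x => add_pos_of_nonneg_of_pos (e1.nn x) d0
  set aB : M.X → ℝ := fun x => d / (M.nrC φB f x + d) with haB
  set aE : M.X → ℝ := fun x => d / (M.nrC φE g x + d) with haE
  have sa : M.Sm aB := (sm_const d).div (b1.sm.add (sm_const d)) fun x => (pB x).ne'
  have sb : M.Sm aE := (sm_const d).div (e1.sm.add (sm_const d)) fun x => (pE x).ne'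
  have sc : M.Sm fun x => t * CB * aB x + t * CE * aE x := (sa.const_mul _).add (sb.const_mul _)
  have cE := (mHES n M).1 _ (sE d d0)
  refine ⟨v, t • M.hw φE + t • M.hs (lE d) +
      fun e z => (t * CB * aB (e.symm z) + t * CE * aE (e.symm z)) • T e z, hv, k1,
    ((wE.clo.toForm.smul t).add (cE.toForm.smul t)).add (mT.toForm.fsmul sc),
    fun e he z hz => ?_, fun e he z hz => ?_, ?_⟩
  · have := (psd_rsmul (e3 d d0 e he z hz) t0.le).add (psd_rsmul (mT.pos e he z hz).posSemidef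
      (show 0 ≤ t * CB * aB (e.symm z) from mul_nonneg (by positivity) (div_pos d0 (pB _)).le))
    convert this using 1
    simp only [Pi.add_apply, Pi.smul_apply, Pi.zero_apply, haE, hlE]
    module
  · have r1 := ((mHES n M).2.2.2.2.2.2.2.2.2 _ T k1.toMet mT).2 e he z hz
    simp only [hq, Real.log_exp] at r1
    have r2 := ((mLAP n M _ _ (hv.const_mul t) (sF d d0)).1 0 e he z hz).2.1
    have r3 := ((mLAP n M _ _ hv hv).1 t e he z hz).2.2.2.1
    have r4 := ((mLAP n M _ _ f1 (sD d d0)).1 0 e he z hz).2.1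
    have r5 := ((mLAP n M _ _ ((sE d d0).const_mul t) ((sB d d0).const_mul t)).1 0 e he z hz).2.2.1
    have r6 := ((mLAP n M _ _ (sE d d0) hv).1 t e he z hz).2.2.2.1
    have r7 := ((mLAP n M _ _ (sB d d0) hv).1 t e he z hz).2.2.2.1
    rw [r2, r3, show M.hs (F d) e z = _ from r4, r5, r6, r7, f3 e he z hz] at r1
    have := (((psd_rsmul (k1.pos e he z hz).posSemidef (sub_nonneg.2 t1)).add
      (psd_rsmul (hη e he z hz) t0.le)).add (psd_rsmul (b3 d d0 e he z hz) t0.le)).add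
      (psd_rsmul (mT.pos e he z hz).posSemidef
        (show 0 ≤ t * CE * aE (e.symm z) from mul_nonneg (by positivity) (div_pos d0 (pE _)).le))
    convert this using 1
    simp only [Pi.add_apply, Pi.smul_apply, Pi.zero_apply] at r1 ⊢
    rw [r1]
    simp only [haB, hlB]
    module
  · have k2 := k1.toMet
    have j1 := intg k2 (sm_tr k2 wE.clo.toTen).continuous
    have j2 := intg k2 (sm_tr k2 cE.toTen).continuous
    have j3 := intg k2 (sa.mul (sm_tr k2 hT.toTen)).continuous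
    have j4 := intg k2 (sb.mul (sm_tr k2 hT.toTen)).continuous
    have z0 : ∫ x, M.tr (T + M.hs v) (M.hs (lE d)) x ∂M.mu (T + M.hs v) = 0 :=
      ((mGRN n M).2 _ _ _ k1 (sE d d0) hv).1
    simp only [tr_add, tr_smul, tr_fsmul (u := fun x => t * CB * aB x + t * CE * aE x)]
    simp only [add_mul, mul_assoc]
    rw [integral_add (by exact (j1.const_mul t).add (j2.const_mul t))
      (by exact ((j3.const_mul CB).const_mul t).add ((j4.const_mul CE).const_mul t)),
      integral_add (j1.const_mul t) (j2.const_mul t),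
      integral_add ((j3.const_mul CB).const_mul t) ((j4.const_mul CE).const_mul t)]
    simp only [integral_const_mul]
    rw [z0, coh1 hT hv k1 wE.clo]
    have a1 := mul_le_mul_of_nonneg_left iB b0.le
    have a2 := mul_le_mul_of_nonneg_left iE e0.le
    rw [show CB * (τ / (2 * CB)) = τ / 2 by field_simp] at a1
    rw [show CE * (τ / (2 * CE)) = τ / 2 by field_simp] at a2
    have a3 := mul_le_mul_of_nonneg_left (add_le_add a1 a2) t0.le
    nlinarith

end Pool.Agent.Lib.AP14
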