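import Pool.Agent.Lib.AP14.Blue

/-! Project ra2, step A: the error term. -/

open scoped Classical Topology ContDiff ComplexOrder Matrix
open Set MeasureTheory Complex Metric Filter

set_option linter.unusedVariables false

noncomputable section

namespace Pool.Agent.Lib.AP14

open Pool.Agent.Lib.SV (E)
open Pool.Agent.Lib.HS32 Pool.Agent.Lib.HS32.Mf

namespace Err

variable {n : ℕ} {M : Mf n}

theorem small (A : ℝ) {τ : ℝ} (hτ : 0 < τ) : ∃ δ : ℝ, 0 < δ ∧ ∀ x ∈ Ioc 0 δ, x * A ≤ τ := by
  refine ⟨τ / (|A| + 1), by positivity, fun x hx => ?_⟩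
  have h := (le_div_iff₀ (by positivity)).1 hx.2
  nlinarith [le_abs_self A, hx.1]

theorem amgm {a b g ε : ℝ} (ha : 0 ≤ a) (hb : 0 ≤ b) (hε : 0 < ε) (h : g ^ 2 ≤ a * b) :
    -g ≤ (ε * a + b / ε) / 2 := by
  have e : a * b = ε * a * (b / ε) := by field_simp
  have := abs_le_of_sq_le_sq' (a := g) (b := (ε * a + b / ε) / 2)
    (by nlinarith [sq_nonneg (ε * a - b / ε)]) (by positivity)
  linarith [this.1]

theorem lam_le {N d s L : ℝ} (hN : 0 ≤ N) (hd : 0 < d) (hs : 0 < s)
    (h1 : Real.log (N + d) ≤ L) (h2 : d ≤ Real.exp (L - 1 / s) / 2) :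
    d / (N + d) ≤ 2 * (1 - Real.exp (s * (Real.log (N + d) - L))) +
      d / (Real.exp (L - 1 / s) / 2) := by
  have h0 : 0 < Real.exp (L - 1 / s) / 2 := by positivity
  have hy : Real.exp (s * (Real.log (N + d) - L)) ≤ 1 := Real.exp_le_one_iff.2 (by nlinarith)
  rcases le_total (Real.exp (L - 1 / s) / 2) N with h | h
  · linarith [div_le_div_of_nonneg_left hd.le h0 (show _ ≤ N + d by linarith)]
  have a1 : Real.log (N + d) ≤ L - 1 / s :=
    (Real.log_le_iff_le_exp (by positivity)).2 (by linarith)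
  have a2 : s * (Real.log (N + d) - L) ≤ -1 := by
    have := mul_le_mul_of_nonneg_left (show Real.log (N + d) - L ≤ -(1 / s) by linarith) hs.le
    rwa [mul_neg, mul_one_div_cancel hs.ne'] at this
  have a3 : Real.exp (s * (Real.log (N + d) - L)) ≤ 1 / 2 :=
    (Real.exp_le_exp.2 a2).trans (by linarith [Real.exp_neg_one_lt_d9])
  have a4 : d / (N + d) ≤ 1 := (div_le_one (by positivity)).2 (by linarith)
  have a5 := div_pos hd h0
  linarith

theorem exp_split {F R p : ℝ} (hp : 1 < p) :
    Real.exp F ≤ Real.exp R + Real.exp (-((p - 1) * R)) * Real.exp (p * F) := by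
  rw [← Real.exp_add]
  rcases le_total F R with h | h
  · linarith [Real.exp_le_exp.2 h, Real.exp_pos (-((p - 1) * R) + p * F)]
  · linarith [Real.exp_le_exp.2 (show F ≤ -((p - 1) * R) + p * F by nlinarith), Real.exp_pos R]

theorem der (s L : ℝ) : (deriv fun x => Real.exp (s * (x - L))) = fun x =>
    s * Real.exp (s * (x - L)) := funext fun x => by
  have := (((hasDerivAt_id x).sub_const L).const_mul s).exp.deriv
  simpa [mul_comm] using this

theorem der2 (s L x : ℝ) : deriv (deriv fun x => Real.exp (s * (x - L))) x =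
    s * (s * Real.exp (s * (x - L))) := by
  rw [der, deriv_const_mul_field, der]

/-- The energy of the cut-off function. -/
theorem cut [M.Cpt] {S T : M.Fam (Mat n)} (hS : M.Kae S) (hT : M.Met T) {l : M.X → ℝ}
    (hl : M.Sm l) {C s L : ℝ} (hC : 0 ≤ C) (hs : 0 < s) (hL : ∀ x, l x ≤ L)
    (h : M.Le 0 (C • T + M.hs l)) :
    2 * ∫ x, M.gr S (fun y => Real.exp (s * (l y - L))) (fun y => Real.exp (s * (l y - L))) x
      ∂M.mu S ≤ s * C * ∫ x, M.tr S T x ∂M.mu S := by
  set y : M.X → ℝ := fun y => Real.exp (s * (l y - L)) with hy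
  have sy : M.Sm y := ((hl.sub (sm_const L)).const_mul s).exp
  have cd : ∀ x, ContDiffAt ℝ ∞ (fun x => Real.exp (s * (x - L))) (l x) := fun x => by fun_prop
  obtain ⟨-, -, a1, a2, -⟩ := (mLAP n M l y hl sy).2.2 S hS.toMet
  obtain ⟨-, -, -, a3, -⟩ := (mLAP n M l l hl hl).2.2 S hS.toMet
  obtain ⟨s1, s2, -⟩ := (mLAP n M y y sy sy).2.2 S hS.toMet
  have g := ((mGRN n M).2 S y y hS sy sy).2.1
  have iT := intg hS.toMet (sm_tr hS.toMet hT.toTen).continuous
  have ig := intg hS.toMet s2.continuous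
  have le : ∫ x, (M.gr S y y x - s * C * M.tr S T x) ∂M.mu S ≤ ∫ x, y x * M.lap S y x ∂M.mu S := by
    refine integral_mono (ig.sub (iT.const_mul _)) (intg hS.toMet (sy.mul s1).continuous)
      fun x => ?_
    have b1 := (a2 _ cd x).1
    have b2 := (a2 _ cd x).2
    have b3 := (a3 _ cd x).2
    have b4 := (a1 x 0).2.2.2.2.2.1
    rw [der2, der] at b1
    rw [der] at b2 b3
    change M.lap S y x = s * y x * M.lap S l x + s * (s * y x) * M.gr S l l x at b1
    change M.gr S y y x = s * y x * M.gr S l y x at b2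
    change M.gr S y l x = s * y x * M.gr S l l x at b3
    have b5 := hS.toMet.tr_nonneg h x
    rw [tr_add, tr_smul] at b5
    change 0 ≤ C * M.tr S T x + M.lap S l x at b5
    have b6 := mul_nonneg hC (hS.toMet.tr_nonneg hT.nonneg x)
    have y0 : 0 < y x := Real.exp_pos _
    have y1 : y x ≤ 1 := Real.exp_le_one_iff.2 (by nlinarith [hL x])
    have y2 : y x ^ 2 ≤ 1 := by nlinarith
    have b7 := mul_nonneg hs.le (add_nonneg (mul_nonneg (sq_nonneg (y x)) b5)
      (mul_nonneg (sub_nonneg.2 y2) b6))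
    beta_reduce
    rw [b1, b2, b4, b3]
    nlinarith
  rw [g, integral_sub ig (iT.const_mul _), integral_const_mul] at le
  linarith

end Err

open Err in
theorem st_ERR : St_ERR := by
  intro n M _ T N C C₁ C₃ t p τ hT hN ht hp hτ
  have hm := hT.toMet
  have := (mMU n M T hm).2.1
  set V := (M.mu T).real univ with hV
  obtain ⟨B, hB⟩ := hN.low hm
  obtain ⟨K, hK, hK1⟩ := hN.sm.exists_bound
  set L := Real.log (K + 1) with hLd
  set D := Real.exp (t * C₁) with hD
  have hτ4 : 0 < τ / 4 := by positivity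
  obtain ⟨ε, hε, h1⟩ := small (n * (D / t * (V + C₃))) hτ4
  obtain ⟨ρ, hρ, h2⟩ := small (2 * n * D * C₃) hτ4
  set R := -Real.log ρ / (p - 1) with hR
  have eR : Real.exp (-((p - 1) * R)) = ρ := by
    rw [hR, mul_div_cancel₀ _ (by linarith), neg_neg, Real.exp_log hρ]
  obtain ⟨s, hs, h3⟩ := small (2 * n * D * Real.exp R * (L * V + B) + C * (n * V) / (2 * ε)) hτ4
  set θ := Real.exp (L - 1 / s) / 2 with hθ
  have θ0 : 0 < θ := by positivity
  obtain ⟨δ, hδ, h4⟩ := small (n * V / θ) hτ4
  refine ⟨min δ (min θ 1), by positivity, fun d hd u F hu hF hS hq hu1 hp3 => ?_⟩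
  obtain ⟨d0, hd⟩ := hd
  obtain ⟨d1, d2, d3⟩ : d ≤ δ ∧ d ≤ θ ∧ d ≤ 1 := by simpa using hd
  replace h1 := h1 ε ⟨hε, le_rfl⟩
  replace h2 := h2 ρ ⟨hρ, le_rfl⟩
  replace h3 := h3 s ⟨hs, le_rfl⟩
  replace h4 := h4 d ⟨d0, d1⟩
  have vol := vol_eq hT hu hS
  set S := T + M.hs u with hSd
  have hn : (0 : ℝ) ≤ n := n.cast_nonneg
  have D0 : 0 < D := Real.exp_pos _
  have sl := sm_lg hN.sm hN.nn d0
  set l : M.X → ℝ := fun x => Real.log (N x + d) with hl
  have lL : ∀ x, l x ≤ L := fun x => Real.log_le_log (add_pos_of_nonneg_of_pos (hN.nn x) d0)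
    (by linarith [le_abs_self (N x), (Real.norm_eq_abs _ ▸ hK1 x : |N x| ≤ K)])
  have hc := cut hS hm sl hN.c0 hs lL (hN.psh d d0)
  set y : M.X → ℝ := fun x => Real.exp (s * (l x - L)) with hy
  have sy : M.Sm y := ((sl.sub (sm_const L)).const_mul s).exp
  have y0 : ∀ x, 0 < y x := fun x => Real.exp_pos _
  have y1 : ∀ x, y x ≤ 1 := fun x => Real.exp_le_one_iff.2 (by nlinarith [lL x])
  have I : ∀ {f : M.X → ℝ}, M.Sm f → Integrable f (M.mu S) := fun h => intg hS.toMet h.continuous
  have J : ∀ {f : M.X → ℝ}, M.Sm f → Integrable f (M.mu T) := fun h => intg hm h.continuous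
  obtain ⟨su, sg, a1, -⟩ := (mLAP n M u y hu sy).2.2 S hS.toMet
  obtain ⟨-, sg1, -⟩ := (mLAP n M u u hu hu).2.2 S hS.toMet
  obtain ⟨-, sg2, a2, -⟩ := (mLAP n M y y sy sy).2.2 S hS.toMet
  obtain ⟨g0, g1, -⟩ := (mGRN n M).2 S u y hS hu sy
  have g2 := ((mGRN n M).2 S u u hS hu hu).2.1
  have sT := sm_tr hS.toMet hT.toTen
  have t0 := hS.toMet.tr_nonneg hm.nonneg
  have e1 : ∀ x, M.tr S T x = n - M.lap S u x := fun x => by
    have := hS.toMet.tr_self (x := x)
    nth_rewrite 2 [hSd] at this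
    rw [tr_add] at this
    change _ + M.lap S u x = _ at this
    linarith
  have v1 : ∫ x, (1 : ℝ) ∂M.mu S = V := by
    rw [chg hm hS.toMet]
    simpa using vol
  have v2 : ∫ x, M.tr S T x ∂M.mu S = n * V := by
    simp only [e1]
    rw [integral_sub (I (sm_const _)) (I su), g0, ← v1, ← integral_const_mul]
    simp
  have sF := hF.exp
  have sp := (hF.const_mul p).exp
  have v3 : ∫ x, Real.exp (F x) ∂M.mu T ≤ V + C₃ := by
    have := integral_mono (J sF) (J ((sm_const 1).add sp)) fun x => by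
      simpa using exp_split (F := F x) (R := 0) hp
    rw [integral_add (J (sm_const _)) (J sp)] at this
    simp only [integral_const, smul_eq_mul, mul_one] at this
    linarith
  have sw : M.Sm fun x => 1 - y x := (sm_const 1).sub sy
  have sc : M.Sm fun x => C₁ - u x := (sm_const C₁).sub hu
  have sq := sm_dq hm hS.toTen
  have v4 : ∫ x, (C₁ - u x) ∂M.mu S ≤ D / t * (V + C₃) := by
    rw [chg hm hS.toMet]
    refine le_trans (integral_mono (J (sq.mul sc)) (J (sF.const_mul (D / t))) fun x => ?_) ?_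
    · beta_reduce
      rw [hq, Real.exp_add, mul_right_comm, div_mul_eq_mul_div, le_div_iff₀ ht]
      have b1 := Real.add_one_le_exp (t * (C₁ - u x))
      have b2 : D = Real.exp (t * u x) * Real.exp (t * (C₁ - u x)) := by
        rw [← Real.exp_add, hD]; congr 1; ring
      have b3 := mul_pos (Real.exp_pos (t * u x)) (Real.exp_pos (F x))
      rw [b2]
      nlinarith
    · rw [integral_const_mul]
      exact mul_le_mul_of_nonneg_left v3 (by positivity)
  have v5 : ∫ x, M.gr S u u x ∂M.mu S ≤ n * (D / t * (V + C₃)) := by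
    have := integral_mono (I ((su.const_mul C₁).sub (hu.mul su))) (I (sc.const_mul (n : ℝ)))
      fun x => by
        have := mul_nonneg (sub_nonneg.2 (hu1 x)) (t0 x)
        rw [e1] at this
        beta_reduce
        nlinarith
    rw [integral_sub (I (su.const_mul C₁)) (I (hu.mul su)), integral_const_mul, integral_const_mul,
      g0, g2] at this
    nlinarith [mul_le_mul_of_nonneg_left v4 hn]
  have v6 : ∫ x, (1 - y x) ∂M.mu T ≤ s * (L * V + B) := by
    have := integral_mono (J sw) (J (((sm_const L).sub sl).const_mul s)) fun x => by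
      have := Real.add_one_le_exp (s * (l x - L))
      change 1 - Real.exp (s * (l x - L)) ≤ s * (L - l x)
      linarith
    rw [integral_const_mul, integral_sub (J (sm_const _)) (J sl)] at this
    simp only [integral_const, smul_eq_mul] at this
    have b := hB d d0
    nlinarith
  have v7 : ∫ x, (1 - y x) ∂M.mu S ≤ D * (Real.exp R * (s * (L * V + B)) + ρ * C₃) := by
    rw [chg hm hS.toMet]
    refine le_trans (integral_mono (J (sq.mul sw))
      (J (((sw.const_mul (Real.exp R)).add (sp.const_mul ρ)).const_mul D)) fun x => ?_) ?_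
    · beta_reduce
      rw [hq, Real.exp_add, mul_assoc]
      have b1 := exp_split (F := F x) (R := R) hp
      rw [eR] at b1
      have b2 := mul_pos hρ (Real.exp_pos (p * F x))
      refine mul_le_mul (Real.exp_le_exp.2 (mul_le_mul_of_nonneg_left (hu1 x) ht.le)) ?_
        (mul_nonneg (Real.exp_pos _).le (sub_nonneg.2 (y1 x))) D0.le
      nlinarith [mul_le_mul_of_nonneg_right b1 (sub_nonneg.2 (y1 x)), mul_pos b2 (y0 x)]
    · rw [integral_const_mul, integral_add (J (sw.const_mul _)) (J (sp.const_mul _)),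
        integral_const_mul, integral_const_mul]
      exact mul_le_mul_of_nonneg_left (add_le_add
        (mul_le_mul_of_nonneg_left v6 (Real.exp_pos _).le)
        (mul_le_mul_of_nonneg_left hp3 hρ.le)) D0.le
  have v8 : ∫ x, -M.gr S u y x ∂M.mu S ≤
      ∫ x, (ε / 2 * M.gr S u u x + 1 / (2 * ε) * M.gr S y y x) ∂M.mu S :=
    integral_mono (I sg.neg) (I ((sg1.const_mul _).add (sg2.const_mul _))) fun x => by
      have b1 := (a1 x 0).2.2.2.2.2.2
      have := amgm b1.1 (a2 x 0).2.2.2.2.2.2.1 hε b1.2.1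
      beta_reduce
      refine this.trans (le_of_eq ?_)
      field_simp
  rw [integral_neg, integral_add (I (sg1.const_mul _)) (I (sg2.const_mul _)), integral_const_mul,
    integral_const_mul, ← g1] at v8
  have sa : M.Sm fun x => d / (N x + d) := (sm_const d).div (hN.sm.add (sm_const d))
    fun x => (add_pos_of_nonneg_of_pos (hN.nn x) d0).ne'
  have v9 := integral_mono (I (sa.mul sT))
    (I ((((sw.const_mul (2 * n : ℝ)).sub (su.const_mul 2)).add ((sy.mul su).const_mul 2)).add
      (sT.const_mul (d / θ)))) fun x => by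
      have := mul_le_mul_of_nonneg_right (lam_le (hN.nn x) d0 hs (lL x) d2) (t0 x)
      change _ ≤ (2 * (1 - y x) + d / θ) * _ at this
      refine this.trans (le_of_eq ?_)
      rw [add_mul, e1]
      ring
  rw [integral_add (I (((sw.const_mul _).sub (su.const_mul _)).add ((sy.mul su).const_mul _)))
    (I (sT.const_mul _)), integral_add (I ((sw.const_mul _).sub (su.const_mul _)))
    (I ((sy.mul su).const_mul _)), integral_sub (I (sw.const_mul _)) (I (su.const_mul _)),
    integral_const_mul, integral_const_mul, integral_const_mul, integral_const_mul, g0, v2] at v9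
  rw [v2] at hc
  have w1 := mul_le_mul_of_nonneg_left v7 (show (0 : ℝ) ≤ 2 * n by positivity)
  have w2 := mul_le_mul_of_nonneg_left v5 hε.le
  have w3 := mul_le_mul_of_nonneg_left hc (show (0 : ℝ) ≤ 1 / (2 * ε) by positivity)
  have w4 : 1 / (2 * ε) * (s * C * (n * V)) = s * (C * (n * V) / (2 * ε)) := by ring
  have w5 : d / θ * (n * V) = d * (n * V / θ) := by ring
  linarith

end Pool.Agent.Lib.AP14
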