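import Pool.Agent.Lib.AP14.B_QUAD
import Pool.Agent.Lib.AP14.B_ERR
import Pool.Agent.Lib.AP14.B_ADJ
import Pool.Agent.Lib.AP14.B_AYP
import Pool.Agent.Lib.KP.B_PSI1

/-! Project ra2, row PL0: an exceptional divisor has small mass. -/

open scoped Classical Topology ContDiff ComplexOrder Matrix
open Set MeasureTheory Complex Metric Filter

noncomputable section

namespace Pool.Agent.Lib.AP14

open Pool.Agent.Lib.SV (E)
open Pool.Agent.Lib.HS32 Pool.Agent.Lib.HS32.Mf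

namespace PL

variable {n : ℕ} {M : Mf n}

/-- The pairing of matrices. -/
def mq (G A Q : Mat n) : ℝ := ((A * Q).trace / G.det).re

theorem mq_nn {G A Q : Mat n} (hG : G.PosDef) (hA : A.PosSemidef) (hQ : Q.PosSemidef) :
    0 ≤ mq G A Q := by
  obtain ⟨W, rfl⟩ := psd_factor hA
  rw [mq, ← herm_det hG.1, div_ofReal_re, Matrix.mul_assoc, Matrix.trace_mul_comm]
  exact div_nonneg (Complex.nonneg_iff.1 (hQ.mul_mul_conjTranspose_same W).trace_nonneg).1
    (pd_det_re hG).le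

theorem mq_lin (G A B Q : Mat n) (a : ℝ) :
    mq G (A + B) Q = mq G A Q + mq G B Q ∧ mq G (A - B) Q = mq G A Q - mq G B Q ∧
    mq G (a • A) Q = a * mq G A Q ∧ mq G Q (A + B) = mq G Q A + mq G Q B ∧
    mq G Q (A - B) = mq G Q A - mq G Q B ∧ mq G Q (a • A) = a * mq G Q A := by
  refine ⟨?_, ?_, ?_, ?_, ?_, ?_⟩ <;>
  simp only [mq, Matrix.add_mul, Matrix.sub_mul, Matrix.mul_add, Matrix.mul_sub, Matrix.smul_mul,
    Matrix.mul_smul, Matrix.trace_add, Matrix.trace_sub, Matrix.trace_smul, add_div, sub_div,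
    add_re, sub_re, real_smul, mul_div_assoc, re_ofReal_mul]

theorem mq_self {G : Mat n} (hG : G.PosDef) : mq G G.adjugate G = n := by
  rw [mq, Matrix.adjugate_mul, Matrix.trace_smul, smul_eq_mul,
    mul_div_cancel_left₀ _ (pd_det_ne hG)]
  simp

/-- The pointwise estimate. -/
theorem pw {r : ℕ} {G W B θ ξ : Mat n} {K t c C N a b : ℝ} (hG : G.PosDef) (hB : B.PosSemidef)
    (hW : (W - B).PosSemidef) (hK : (K • G - W).PosSemidef) (hr : B.rank ≤ r) (K0 : 0 ≤ K)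
    (ht : t ∈ Ioc (0 : ℝ) 1) (h1 : (c • G - θ).PosSemidef) (h2 : (θ - -(c • G)).PosSemidef)
    (hξ : ξ.PosSemidef) (hq : mq G W.adjugate ξ ≤ C * N) (c0 : 0 ≤ c) (C0 : 0 ≤ C) (a0 : 0 ≤ a)
    (a1 : a ≤ 1) (b0 : 0 ≤ b) (hb : b * N ≤ a) :
    mq G (RA28.topS r (W + t • G) B) (a • θ + b • ξ) ≤ 2 ^ n * ((1 + K) ^ n * (c * n) + C) * a +
      t * (2 ^ n * (1 + K) ^ n) * (mq G G.adjugate (a • θ + b • ξ) + c * n) := by
  obtain ⟨p1, p2, p3, p4⟩ := st_ADJ n r G W B K t hG hB hW hK hr K0 ht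
  have L := mq_lin (n := n)
  have s := mq_self hG
  have q1 := mq_nn hG p1 h1
  have q2 := mq_nn hG p2 hG.posSemidef
  have q3 := mq_nn hG p4 hG.posSemidef
  have q4 := mq_nn hG p2 hξ
  have q5 := mq_nn hG p3 hξ
  have q6 : 0 ≤ mq G G.adjugate (θ - -(c • G)) := by
    refine mq_nn hG ?_ h2
    have := psd_rsmul hG.inv.posSemidef (pd_det_re hG).le
    rwa [RAA.TTop.rs, herm_det hG.1, Matrix.inv_def, smul_smul, Ring.inverse_eq_inv',
      mul_inv_cancel₀ (pd_det_ne hG), one_smul] at this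
  rw [sub_neg_eq_add] at q6
  simp only [fun G A B Q => (L G A B Q 0).1, fun G A B Q => (L G A B Q 0).2.1,
    fun G A Q a => (L G A A Q a).2.2.1, fun G A B Q => (L G A B Q 0).2.2.2.1,
    fun G A B Q => (L G A B Q 0).2.2.2.2.1, fun G A Q a => (L G A A Q a).2.2.2.2.2, s] at *
  generalize RA28.topS r (W + t • G) B = S at *
  generalize (W + t • G).adjugate = H at *
  have k0 : (0 : ℝ) ≤ 2 ^ n := by positivity
  have k1 : 0 ≤ (1 + K) ^ n := by positivity
  have w1 : mq G S θ ≤ 2 ^ n * ((1 + K) ^ n * (c * n)) := by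
    have u1 := mul_le_mul_of_nonneg_left (sub_nonneg.1 q3) k0
    have u2 := mul_le_mul_of_nonneg_left ((sub_nonneg.1 q2).trans u1) c0
    linarith
  have w2 : mq G S ξ ≤ 2 ^ n * (C * N + t * (1 + K) ^ n * mq G G.adjugate ξ) := by
    have u1 := mul_le_mul_of_nonneg_left
      (show mq G H ξ ≤ C * N + t * (1 + K) ^ n * mq G G.adjugate ξ by linarith) k0
    linarith
  have w3 : 0 ≤ a * mq G G.adjugate θ + c * n := by
    have : (0 : ℝ) ≤ c * n := by positivity
    nlinarith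
  have w4 := mul_le_mul_of_nonneg_left w1 a0
  have w5 := mul_le_mul_of_nonneg_left w2 b0
  have w6 := mul_le_mul_of_nonneg_left hb (mul_nonneg k0 C0)
  have w7 := mul_nonneg (mul_nonneg ht.1.le (mul_nonneg k0 k1)) w3
  linarith

theorem ad_sum : ∃ γ : Fin (n + 1) → ℝ, ∀ (G T Q : M.Fam (Mat n)) (x : M.X),
    pq M G (ad M T) Q x = ∑ l, γ l * M.dq G (T + ((l : ℕ) : ℝ) • Q) x := by
  obtain ⟨γ, hγ⟩ := RAA.TTop.nodes n 1
  refine ⟨γ, fun G T Q x => ?_⟩
  have := (hγ (M.ev T x) (M.ev Q x)).2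
  rw [RAA.TTop.cd_one] at this
  change (((M.ev T x).adjugate * M.ev Q x).trace / _).re = _
  rw [this, Finset.sum_div, re_sum]
  refine Finset.sum_congr rfl fun l _ => ?_
  rw [real_smul, mul_div_assoc, re_ofReal_mul]
  rfl

theorem tS_sum (r : ℕ) : ∃ γ : ℕ → ℝ, ∀ (G H η Q : M.Fam (Mat n)) (x : M.X),
    pq M G (tS M r H η) Q x =
      ∑ m ∈ Finset.range (r + 1), γ m * pq M G (ad M (H + (m : ℝ) • η)) Q x := by
  refine ⟨fun m => (-1) ^ (r - m) * (r.choose m : ℝ) / (r.factorial : ℝ), fun G H η Q x => ?_⟩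
  change ((RA28.topS r (M.ev H x) (M.ev η x) * M.ev Q x).trace / _).re = _
  rw [RA28.topS, Matrix.sum_mul, Matrix.trace_sum, Finset.sum_div, re_sum]
  refine Finset.sum_congr rfl fun m _ => ?_
  rw [Matrix.smul_mul, Matrix.trace_smul, smul_eq_mul, mul_div_assoc,
    show RA28.fw r m = (((-1) ^ (r - m) * (r.choose m : ℝ) / (r.factorial : ℝ) : ℝ) : ℂ) by
      simp [RA28.fw], re_ofReal_mul, ← ofReal_natCast, ← RAA.TTop.rs]
  rfl

variable {G T θ η : M.Fam (Mat n)} {u : M.X → ℝ}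

theorem sm_ad (hG : M.Met G) (hT : M.Ten T) (hθ : M.Ten θ) : M.Sm (pq M G (ad M T) θ) := by
  obtain ⟨γ, hγ⟩ := ad_sum (M := M)
  rw [funext (hγ G T θ)]
  exact Sm.sum fun l _ => (sm_dq hG (hT.add (hθ.smul _))).const_mul _

theorem sm_tS (r : ℕ) (hG : M.Met G) (hT : M.Ten T) (hη : M.Ten η) (hθ : M.Ten θ) :
    M.Sm (pq M G (tS M r T η) θ) := by
  obtain ⟨γ, hγ⟩ := tS_sum (M := M) r
  rw [funext (hγ G T η θ)]
  exact Sm.sum fun l _ => (sm_ad hG (hT.add (hη.smul _)) hθ).const_mul _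

theorem coh_ad [M.Cpt] (hG : M.Met G) (hT : M.Clo T) (hθ : M.Clo θ) (hu : M.Sm u) :
    ∫ x, pq M G (ad M T) (θ + M.hs u) x ∂M.mu G = ∫ x, pq M G (ad M T) θ x ∂M.mu G := by
  obtain ⟨γ, hγ⟩ := ad_sum (M := M)
  have ci : ∀ S, M.Clo S → ∀ l : Fin (n + 1), Integrable
      (fun x => γ l * M.dq G (T + ((l : ℕ) : ℝ) • S) x) (M.mu G) := fun S hS l =>
    (intg hG (sm_dq hG (hT.add (hS.smul _)).toTen).continuous).const_mul _
  simp only [hγ]
  rw [integral_finsetSum _ fun l _ => ci _ (hθ.add ((mHES n M).1 u hu)) l,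
    integral_finsetSum _ fun l _ => ci _ hθ l]
  refine Finset.sum_congr rfl fun l _ => ?_
  rw [integral_const_mul, integral_const_mul,
    ← mCOH n M G _ _ hG (hT.add (hθ.smul _)) (hu.const_mul ((l : ℕ) : ℝ)),
    dq_congr (G' := G) (fun _ _ _ _ => rfl) fun e he z hz => ?_]
  simp only [Pi.add_apply, Pi.smul_apply, smul_add, add_assoc,
    ((mLAP n M u u hu hu).1 ((l : ℕ) : ℝ) e he z hz).2.2.2.1]

theorem coh_tS [M.Cpt] (r : ℕ) (hG : M.Met G) (hT : M.Clo T) (hη : M.Clo η) (hθ : M.Clo θ)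
    (hu : M.Sm u) : ∫ x, pq M G (tS M r T η) (θ + M.hs u) x ∂M.mu G =
      ∫ x, pq M G (tS M r T η) θ x ∂M.mu G := by
  obtain ⟨γ, hγ⟩ := tS_sum (M := M) r
  have ci : ∀ S, M.Clo S → ∀ m : ℕ, Integrable
      (fun x => γ m * pq M G (ad M (T + (m : ℝ) • η)) S x) (M.mu G) := fun S hS m =>
    (intg hG (sm_ad hG (hT.add (hη.smul _)).toTen hS.toTen).continuous).const_mul _
  simp only [hγ]
  rw [integral_finsetSum _ fun l _ => ci _ (hθ.add ((mHES n M).1 u hu)) l,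
    integral_finsetSum _ fun l _ => ci _ hθ l]
  refine Finset.sum_congr rfl fun l _ => ?_
  rw [integral_const_mul, integral_const_mul, coh_ad hG (hT.add (hη.smul _)) hθ hu]

/-- The cut-off function has small mass. -/
theorem lam_small [M.Cpt] {N : M.X → ℝ} {C τ : ℝ} (hG : M.Met G) (hN : Lg M G N C) (hτ : 0 < τ) :
    ∃ d : ℝ, 0 < d ∧ ∫ x, d / (N x + d) ∂M.mu G ≤ τ := by
  have := (mMU n M G hG).2.1
  set V := (M.mu G).real univ
  obtain ⟨B, hB⟩ := hN.low hG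
  obtain ⟨K, hK, hK1⟩ := hN.sm.exists_bound
  set L := Real.log (K + 1)
  obtain ⟨s, hs, h1⟩ := Err.small (2 * (V * L + B)) (half_pos hτ)
  set θ := Real.exp (L - 1 / s) / 2 with hθ
  have θ0 : 0 < θ := by positivity
  obtain ⟨δ, hδ, h2⟩ := Err.small (V / θ) (half_pos hτ)
  obtain ⟨d, d0, d1, d2, d3⟩ : ∃ d : ℝ, 0 < d ∧ d ≤ 1 ∧ d ≤ δ ∧ d ≤ θ :=
    ⟨min 1 (min δ θ), by positivity, min_le_left _ _,
      (min_le_right _ _).trans (min_le_left _ _), (min_le_right _ _).trans (min_le_right _ _)⟩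
  refine ⟨d, d0, ?_⟩
  have p : ∀ x, 0 < N x + d := fun x => add_pos_of_nonneg_of_pos (hN.nn x) d0
  have il := intg hG (sm_lg hN.sm hN.nn d0).continuous
  have a := integral_mono (intg hG ((sm_const d).div (hN.sm.add (sm_const d))
    fun x => (p x).ne').continuous) ((integrable_const (2 * s * L + d / θ)).sub
      (il.const_mul (2 * s))) fun x => by
    have b := Err.lam_le (hN.nn x) d0 hs (L := L) (Real.log_le_log (p x)
      (by linarith [le_abs_self (N x), (Real.norm_eq_abs _ ▸ hK1 x : |N x| ≤ K)])) d3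
    have b' := Real.add_one_le_exp (s * (Real.log (N x + d) - L))
    rw [← hθ] at b
    change d / (N x + d) ≤ 2 * s * L + d / θ - 2 * s * Real.log (N x + d)
    linarith
  simp only [Pi.sub_apply] at a
  rw [integral_sub (integrable_const _) (il.const_mul _), integral_const, integral_const_mul,
    smul_eq_mul] at a
  have b1 := h1 s ⟨hs, le_rfl⟩
  have b2 := h2 d ⟨d0, d2⟩
  have b3 := mul_le_mul_of_nonneg_left (hB d d0) hs.le
  have b4 : V * (d / θ) = d * (V / θ) := by ring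
  change _ ≤ V * _ - _ at a
  linarith

theorem beta {L : M.Co} {g : M.Fam ℂ} {φ : M.Fam ℝ} (hg : M.HSecC L g) (hφ : M.WtC L φ) {d : ℝ}
    (hd : 0 < d) (x : M.X) : M.ev (M.hw φ + M.hs fun y => Real.log (M.nrC φ g y + d)) x =
      (d / (M.nrC φ g x + d)) • M.ev (M.hw φ) x +
        (d / (M.nrC φ g x + d) ^ 2) • M.ev (xi M (M.nrC φ g) (M.hw φ)) x := by
  have hs := hφ.nr_sm hg.toSecC
  have hp : ∀ x, 0 < M.nrC φ g x + d := fun x => add_pos_of_nonneg_of_pos (M.nrC_nonneg φ g x) hd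
  have h2 := (AllOn.ch ((mLAP n M _ _ hs hs).2.1 (fun s => Real.log (s + d)) fun x =>
    (contDiffAt_id.add contDiffAt_const).log (hp x).ne').2 x).1
  obtain ⟨h3, h4, -⟩ := AllOn.ch (KP.st_NHS n M L g φ hg hφ) x
  have h6 := AllOn.ch (Q56.xi_eq hg hφ) x
  have h5 := hp x
  simp only [ch_symm] at h2 h3 h4
  simp only [Mf.ev, Pi.add_apply]
  rw [h2, h3, h4, h6, (KP.T7.d1 h5).deriv, KP.T7.d2 h5]
  match_scalars <;> field_simp <;> ring

end PL

open PL in
theorem st_PL0 : St_PL0 := by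
  intro n r M _ G Y η L g φ s hG hY hη η0 hl hr hg hφ s0 g0 hE
  have mG := hG.toMet
  have := (mMU n M G mG).2.1
  obtain ⟨C, C0, hC⟩ := st_QUAD n M G Y L g φ mG hY.toForm (η0.trans hl) hg hφ hE
  obtain ⟨-, C', -, -, hN, -⟩ := AYP.lg (KP.st_PSI1 KP.st_NHS) mG hg hφ
    (g0.imp fun x hx => nrC_ne.2 hx)
  obtain ⟨K, K0, hK, -⟩ := (mBD n M G mG).1 Y hY.toForm
  obtain ⟨c, c0, h1, h2⟩ := (mBD n M G mG).1 _ hφ.clo.toForm
  set A : ℝ := 2 ^ n * ((1 + K) ^ n * (c * n) + C)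
  set D : ℝ := 2 ^ n * (1 + K) ^ n
  set R : ℝ := ∫ x, pq M G (ad M G) (M.hw φ) x ∂M.mu G + (M.mu G).real univ * (c * n) with hR
  refine ⟨s * (D * R), fun t ht => ?_⟩
  have cH := hY.add (hG.toClo.smul t)
  have key : ∫ x, pq M G (tS M r (Y + t • G) η) (M.hw φ) x ∂M.mu G ≤ t * D * R := by
    refine le_of_forall_pos_le_add fun ε hε => ?_
    obtain ⟨τ, τ0, hτ⟩ := Err.small A hε
    obtain ⟨d, d0, hd⟩ := lam_small mG hN τ0
    have sl := sm_lg hN.sm hN.nn d0
    have p : ∀ x, 0 < M.nrC φ g x + d := fun x => add_pos_of_nonneg_of_pos (hN.nn x) d0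
    have tb := (hφ.clo.add ((mHES n M).1 _ sl)).toTen
    have i1 := (intg mG ((sm_const d).div (hN.sm.add (sm_const d))
      fun x => (p x).ne').continuous).const_mul A
    have i2 := intg mG (sm_ad mG mG.toTen tb).continuous
    have i3 := (i2.add (integrable_const (c * n : ℝ))).const_mul (t * D)
    have a := integral_mono (intg mG (sm_tS r mG cH.toTen hη.toTen tb).continuous) (i1.add i3)
      fun x => by
        have q := p x
        have b := pw (mG.ev_pos x) (B := M.ev η x) (by simpa [Mf.ev] using AllOn.ch η0 x)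
          (AllOn.ch hl x) (AllOn.ch hK x) (AllOn.ch hr x) K0.le ht (AllOn.ch h1 x) (AllOn.ch h2 x)
          (ξ := M.ev (xi M (M.nrC φ g) (M.hw φ)) x) (by
            rw [Mf.ev, AllOn.ch (Q56.xi_eq hg hφ) x]
            exact psd_rsmul (Matrix.posSemidef_vecMulVec_star_self _) (Real.exp_pos _).le)
          (hC x) c0.le C0 (div_pos d0 q).le ((div_le_one q).2 (by linarith [hN.nn x]))
          (show 0 ≤ d / (M.nrC φ g x + d) ^ 2 by positivity) (by
            rw [div_mul_eq_mul_div, div_le_div_iff₀ (by positivity) q]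
            nlinarith [mul_pos (mul_pos d0 d0) q])
        have e := beta hg hφ d0 x
        change mq _ _ (M.ev _ x) ≤ _ + _ * (mq _ _ (M.ev _ x) + _)
        rw [e]
        exact b
    simp only [Pi.add_apply] at a i3
    rw [coh_tS r mG cH hη hφ.clo sl, integral_add i1 i3, integral_const_mul, integral_const_mul,
      integral_add i2 (integrable_const _), coh_ad mG hG.toClo hφ.clo sl, integral_const,
      smul_eq_mul, ← hR] at a
    have b := mul_le_mul_of_nonneg_left hd (show 0 ≤ A by positivity)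
    linarith [hτ τ ⟨τ0, le_rfl⟩]
  have e : ∀ x, pq M G (tS M r (Y + t • G) η) (s • M.hw φ) x =
      s * pq M G (tS M r (Y + t • G) η) (M.hw φ) x := fun x =>
    (mq_lin _ (M.ev (M.hw φ) x) 0 _ s).2.2.2.2.2
  simp only [e]
  rw [integral_const_mul]
  linarith [mul_le_mul_of_nonneg_left key s0]

end Pool.Agent.Lib.AP14
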