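import Pool.Agent.Lib.AP14.Blue

/-! Project ra2, row QDE: the quadratic bound in coordinates. -/

open scoped Classical Topology ContDiff ComplexOrder Matrix
open Set Complex Metric Filter

noncomputable section

namespace Pool.Agent.Lib.AP14

open Pool.Agent.Lib.SV (E)
open Pool.Agent.Lib.HS32

namespace Q56

variable {n : ℕ}

theorem adj_psd {W : Mat n} (h : W.PosSemidef) : W.adjugate.PosSemidef := by
  obtain ⟨U, d, hf⟩ := RA28.exists_fr Matrix.PosDef.one h
  have e := hf.adj_comb 0 1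
  rw [zero_smul, one_smul, zero_add, Matrix.det_one, one_smul] at e
  rw [e]
  refine Matrix.PosSemidef.mul_mul_conjTranspose_same (Matrix.posSemidef_diagonal_iff.2 fun l => ?_) U
  refine Finset.prod_nonneg fun k _ => ?_
  rw [zero_add, one_mul]
  exact_mod_cast hf.hd k

theorem ker_inj {W : Mat n} {i j : Fin n} (h : W.adjugate i j ≠ 0) {v : E n} (hv : W *ᵥ v = 0)
    (hi : v i = 0) : v = 0 := by
  rw [Matrix.adjugate_apply] at h
  refine Matrix.eq_zero_of_mulVec_eq_zero h (funext fun l => ?_)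
  by_cases e : l = j
  · subst e
    change (W.updateRow l (Pi.single i 1)) l ⬝ᵥ v = 0
    rw [Matrix.updateRow_self, single_dotProduct, hi, mul_zero]
  · change (W.updateRow j (Pi.single i 1)) l ⬝ᵥ v = 0
    rw [Matrix.updateRow_ne e]
    exact congrFun hv l

theorem adj_kill {W : Mat n} {v c : E n} (hv : W *ᵥ v = 0) (h0 : v ≠ 0) (hc : c ⬝ᵥ v = 0)
    (u : E n) : c ⬝ᵥ W.adjugate *ᵥ u = 0 := by
  by_cases hA : W.adjugate = 0
  · rw [hA, Matrix.zero_mulVec, dotProduct_zero]
  obtain ⟨i, j, hij⟩ : ∃ i j, W.adjugate i j ≠ 0 := by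
    by_contra hn
    push Not at hn
    exact hA (Matrix.ext hn)
  have hd : W.det = 0 := Matrix.exists_mulVec_eq_zero_iff.1 ⟨v, h0, hv⟩
  have hw : W *ᵥ (W.adjugate *ᵥ u) = 0 := by
    rw [Matrix.mulVec_mulVec, Matrix.mul_adjugate, hd, zero_smul, Matrix.zero_mulVec]
  have hi : v i ≠ 0 := fun e => h0 (ker_inj hij hv e)
  have h1 := ker_inj hij (v := v i • (W.adjugate *ᵥ u) - (W.adjugate *ᵥ u) i • v)
    (by rw [Matrix.mulVec_sub, Matrix.mulVec_smul, Matrix.mulVec_smul, hw, hv, smul_zero, smul_zero,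
      sub_zero]) (by simp [mul_comm])
  have h2 := congrArg (c ⬝ᵥ ·) h1
  simp only [dotProduct_sub, dotProduct_smul, hc, smul_eq_mul, mul_zero, sub_zero,
    dotProduct_zero] at h2
  exact (mul_eq_zero.1 h2).resolve_left hi

theorem tr_eq (A : Mat n) (c : E n) :
    (A * Matrix.vecMulVec (star c) c).trace.re = nq A (star c) := by
  rw [nq, star_star, Matrix.mul_vecMulVec, Matrix.trace_vecMulVec, dotProduct_comm]

theorem nq_nn {A : Mat n} (h : A.PosSemidef) (v : E n) : 0 ≤ nq A v :=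
  (Complex.nonneg_iff.1 (h.dotProduct_mulVec_nonneg v)).1

theorem nq_cs (A : Mat n) (a : ℂ) (v : E n) : nq A (a • v) = normSq a * nq A v := by
  rw [nq, nq, star_smul, Matrix.mulVec_smul, smul_dotProduct, dotProduct_smul, smul_smul,
    smul_eq_mul, star_def, ← normSq_eq_conj_mul_self, re_ofReal_mul]

theorem nq_add {A : Mat n} (h : A.PosSemidef) (u v : E n) :
    nq A (u + v) ≤ 2 * nq A u + 2 * nq A v := by
  have h1 := nq_nn h (u - v)
  simp only [nq, star_add, star_sub, Matrix.mulVec_add, Matrix.mulVec_sub, add_dotProduct,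
    sub_dotProduct, dotProduct_add, dotProduct_sub, add_re, sub_re] at h1 ⊢
  linarith

theorem nq_comb {A : Mat n} (h : A.PosSemidef) (a b : ℂ) (u v : E n) :
    nq A (star (a • u + b • v)) ≤
      2 * (normSq a * nq A (star u)) + 2 * (normSq b * nq A (star v)) := by
  have := nq_add h (star a • star u) (star b • star v)
  rw [nq_cs, nq_cs, star_def, normSq_conj, normSq_conj] at this
  rwa [star_add, star_smul, star_smul]

/-- A zero of `h` close to a given point. -/
theorem near_zero {h : E n → ℂ} {z : E n} (hh : HolN h z) (h0 : h z = 0) (h1 : fderiv ℂ h z ≠ 0) :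
    ∃ (K : ℝ) (p : E n → E n), Tendsto p (𝓝 z) (𝓝 z) ∧
      ∀ᶠ y in 𝓝 z, h (p y) = 0 ∧ ‖y - p y‖ ≤ K * ‖h y‖ := by
  obtain ⟨u, hu⟩ : ∃ u, fderiv ℂ h z u = 1 := by
    obtain ⟨u, hu⟩ : ∃ u, fderiv ℂ h z u ≠ 0 := by
      by_contra hn
      push Not at hn
      exact h1 (ContinuousLinearMap.ext hn)
    exact ⟨(fderiv ℂ h z u)⁻¹ • u, by rw [map_smul, smul_eq_mul, inv_mul_cancel₀ hu]⟩
  have cd : ContDiffAt ℝ ∞ h z := ((mHOL n h z).2.2 hh).1
  set l := fderiv ℂ h z with hl
  have s1 : HasStrictFDerivAt h (l.restrictScalars ℝ) z := by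
    rw [← (hh.self_of_nhds.hasFDerivAt.restrictScalars ℝ).fderiv]
    exact cd.hasStrictFDerivAt (by simp)
  have s2 : HasStrictFDerivAt (fun y => y + (h y - l y) • u)
      ((ContinuousLinearEquiv.refl ℝ (E n) : E n ≃L[ℝ] E n) : E n →L[ℝ] E n) z := by
    refine ((hasStrictFDerivAt_id z).add
      ((s1.sub (l.restrictScalars ℝ).hasStrictFDerivAt).smul_const u)).congr_fderiv ?_
    ext1 w
    simp
  have hl2 : ∀ y, l (y + (h y - l y) • u) = h y := fun y => by
    rw [map_add, map_smul, hu, smul_eq_mul]; ring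
  obtain ⟨K, s, hs, hK⟩ := s2.to_localInverse.exists_lipschitzOnWith
  have t1 : Tendsto (fun y => y + (h y - l y) • u) (𝓝 z) (𝓝 (z + (h z - l z) • u)) :=
    s2.continuousAt
  have t2 : Tendsto (fun y => y + (h y - l y) • u - h y • u) (𝓝 z) (𝓝 (z + (h z - l z) • u)) := by
    have := t1.sub (cd.continuousAt.tendsto.smul_const u)
    rwa [h0, zero_smul, sub_zero, ← h0] at this
  refine ⟨K * ‖u‖, fun y => s2.localInverse _ _ _ (y + (h y - l y) • u - h y • u),
    s2.localInverse_tendsto.comp t2, ?_⟩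
  filter_upwards [t1.eventually hs, t2.eventually hs, s2.eventually_left_inverse,
    t2.eventually s2.eventually_right_inverse] with y a b c d
  refine ⟨?_, ?_⟩
  · rw [← hl2, d, map_sub, hl2, map_smul, hu, smul_eq_mul, mul_one, sub_self]
  · have := hK.norm_sub_le a b
    rw [c, sub_sub_cancel, norm_smul] at this
    linarith

/-- A non-negative smooth function is quadratically small near its zeros. -/
theorem quad_min {F : E n → ℝ} {z : E n} (hF : ContDiffAt ℝ ∞ F z) (h0 : ∀ᶠ y in 𝓝 z, 0 ≤ F y) :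
    ∃ L r : ℝ, 0 ≤ L ∧ 0 < r ∧ ∀ y ∈ ball z r, ∀ y' ∈ ball z r, F y' = 0 →
      F y ≤ L * ‖y - y'‖ ^ 2 := by
  obtain ⟨K, t, ht, hK⟩ :=
    ((cd_le hF 2).fderiv_right (m := 1) (by norm_cast)).exists_lipschitzOnWith
  obtain ⟨r, hr, hb⟩ := Metric.eventually_nhds_iff_ball.1
    ((cd_ev_diff hF).and (h0.eventually_nhds.and ht))
  refine ⟨K, r, K.2, hr, fun y hy y' hy' e => ?_⟩
  have m : fderiv ℝ F y' = 0 :=
    IsLocalMin.fderiv_eq_zero ((hb y' hy').2.1.mono fun w hw => by rw [e]; exact hw)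
  have := Convex.norm_image_sub_le_of_norm_fderiv_le (𝕜 := ℝ) (f := F) (C := K * ‖y - y'‖)
    (s := ball z r ∩ closedBall y' ‖y - y'‖) (x := y') (y := y) (fun w hw => (hb w hw.1).1)
    (fun w hw => by
      have a := hK.norm_sub_le (hb w hw.1).2.2 (hb y' hy').2.2
      rw [m, sub_zero] at a
      exact a.trans (mul_le_mul_of_nonneg_left (mem_closedBall_iff_norm.1 hw.2) K.2))
    ((convex_ball _ _).inter (convex_closedBall _ _))
    ⟨hy', mem_closedBall_self (norm_nonneg _)⟩ ⟨hy, mem_closedBall_iff_norm.2 le_rfl⟩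
  rw [e, sub_zero] at this
  calc F y ≤ ‖F y‖ := le_abs_self _
    _ ≤ _ := this
    _ = _ := by ring

/-- The gradient. -/
def gd (h : E n → ℂ) (y : E n) : E n := fun j => dz j h y

theorem gd_dot {h : E n → ℂ} {y : E n} (hh : DifferentiableAt ℂ h y) (v : E n) :
    gd h y ⬝ᵥ v = fderiv ℂ h y v := by
  conv_rhs => rw [← Finset.univ_sum_single v, map_sum]
  refine Finset.sum_congr rfl fun j _ => ?_
  rw [gd, (mHOL n h y).2.1 hh j, mul_comm, ← smul_eq_mul, ← map_smul, ← Pi.single_smul,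
    smul_eq_mul, mul_one]

theorem cd_nq {A : E n → Mat n} {c : E n → E n} {z : E n} (hA : SmM A z)
    (hc : ∀ j, ContDiffAt ℝ ∞ (fun y => c y j) z) :
    ContDiffAt ℝ ∞ (fun y => nq (A y) (star (c y))) z := by
  refine cd_re ?_
  simp only [star_star, dotProduct, Matrix.mulVec, Pi.star_apply]
  exact ContDiffAt.sum fun i _ => (hc i).mul (ContDiffAt.sum fun j _ => (hA i j).mul (cd_star (hc j)))

theorem ct_nq {A : E n → Mat n} {c : E n → E n} {z : E n} (hA : SmM A z) (hc : ContinuousAt c z) :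
    ∃ C : ℝ, ∀ᶠ y in 𝓝 z, nq (A y) (star (c y)) ≤ C := by
  have : ContinuousAt (fun y => nq (A y) (star (c y))) z := by
    refine continuous_re.continuousAt.comp ?_
    simp only [star_star, dotProduct, Matrix.mulVec, Pi.star_apply]
    exact tendsto_finsetSum _ fun i _ => (continuousAt_pi.1 hc i).mul (tendsto_finsetSum _
      fun j _ => (hA i j).continuousAt.mul (continuousAt_pi.1 hc j).star)
  exact ⟨_, this.eventually (eventually_le_nhds (lt_add_one _))⟩

/-- The quadratic bound for the gradient of `h`. -/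
def Bd (W : E n → Mat n) (h : E n → ℂ) (z : E n) : Prop :=
  ∃ C : ℝ, ∀ᶠ y in 𝓝 z, nq (W y).adjugate (star (gd h y)) ≤ C * normSq (h y)

theorem bd_one {W : E n → Mat n} {h : E n → ℂ} {z : E n}
    (hW : ∀ᶠ y in 𝓝 z, SmM W y ∧ (W y).PosSemidef) (hh : HolN h z)
    (hz : ∀ᶠ y in 𝓝 z, h y = 0 →
      fderiv ℂ h y ≠ 0 ∧ ∃ v, v ≠ 0 ∧ fderiv ℂ h y v = 0 ∧ nq (W y) v = 0) : Bd W h z := by
  have cd : ContDiffAt ℝ ∞ h z := ((mHOL n h z).2.2 hh).1
  have cF := cd_nq (c := gd h) hW.self_of_nhds.1.adjugate fun j => cd_dz cd j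
  by_cases h0 : h z = 0
  · obtain ⟨K, p, hp, hK⟩ := near_zero hh h0 (hz.self_of_nhds h0).1
    obtain ⟨L, r, hL, hr, hb⟩ := quad_min cF (hW.mono fun y hy => nq_nn (adj_psd hy.2) _)
    refine ⟨L * K ^ 2, ?_⟩
    filter_upwards [hK, ball_mem_nhds z hr, hp.eventually (ball_mem_nhds z hr), hp.eventually hz,
      hp.eventually hW, hp.eventually hh] with y a b c d e f
    obtain ⟨-, v, v0, v1, v2⟩ := d a.1
    have v3 : W (p y) *ᵥ v = 0 := by
      refine (e.2.dotProduct_mulVec_zero_iff v).1 (Complex.ext v2 ?_)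
      exact (Complex.nonneg_iff.1 (e.2.dotProduct_mulVec_nonneg v)).2.symm
    refine (hb y b (p y) c ?_).trans ?_
    · rw [nq, star_star, adj_kill v3 v0 (by rw [gd_dot f, v1]), zero_re]
    · rw [mul_assoc, ← Complex.sq_norm, ← mul_pow]
      exact mul_le_mul_of_nonneg_left (pow_le_pow_left₀ (norm_nonneg _) a.2 2) hL
  · have p0 : 0 < normSq (h z) := normSq_pos.2 h0
    have c1 : ContinuousAt (fun y => nq (W y).adjugate (star (gd h y)) / normSq (h y)) z :=
      cF.continuousAt.div (continuous_normSq.continuousAt.comp cd.continuousAt) p0.ne'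
    refine ⟨nq (W z).adjugate (star (gd h z)) / normSq (h z) + 1, ?_⟩
    filter_upwards [cd.continuousAt.eventually_ne h0,
      c1.eventually (eventually_le_nhds (lt_add_one _))] with y a b
    exact (div_le_iff₀ (normSq_pos.2 a)).1 b

theorem bd_mul {W : E n → Mat n} {f g : E n → ℂ} {z : E n}
    (hW : ∀ᶠ y in 𝓝 z, SmM W y ∧ (W y).PosSemidef) (hf : HolN f z) (hg : HolN g z)
    (bf : Bd W f z) (bg : Bd W g z) : Bd W (fun y => f y * g y) z := by
  obtain ⟨C, hC⟩ := bf
  obtain ⟨D, hD⟩ := bg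
  refine ⟨2 * C + 2 * D, ?_⟩
  filter_upwards [hW, hf, hg, hC, hD] with y a b c d e
  have e1 : gd (fun y => f y * g y) y = g y • gd f y + f y • gd g y := by
    funext j
    simp only [gd, dz_mul (b.restrictScalars ℝ) (c.restrictScalars ℝ), Pi.add_apply, Pi.smul_apply,
      smul_eq_mul]
    ring
  rw [e1, normSq_mul]
  have := nq_comb (adj_psd a.2) (g y) (f y) (gd f y) (gd g y)
  nlinarith [mul_le_mul_of_nonneg_left d (normSq_nonneg (g y)),
    mul_le_mul_of_nonneg_left e (normSq_nonneg (f y))]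

theorem bd_prod {W : E n → Mat n} {z : E n} (hW : ∀ᶠ y in 𝓝 z, SmM W y ∧ (W y).PosSemidef)
    {k : ℕ} {h : Fin k → E n → ℂ} (hh : ∀ a, HolN (h a) z) (hb : ∀ a, Bd W (h a) z)
    (s : Finset (Fin k)) :
    HolN (fun y => ∏ a ∈ s, h a y) z ∧ Bd W (fun y => ∏ a ∈ s, h a y) z := by
  induction s using Finset.induction_on with
  | empty =>
    simp only [Finset.prod_empty]
    have : HolN (fun _ : E n => (1 : ℂ)) z := Eventually.of_forall fun _ => differentiableAt_const _
    exact ⟨this, bd_one hW this (Eventually.of_forall fun _ e => absurd e one_ne_zero)⟩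
  | insert a s ha ih =>
    simp only [Finset.prod_insert ha]
    exact ⟨((hh a).and ih.1).mono fun y e => e.1.mul e.2, bd_mul hW (hh a) ih.1 (hb a) ih.2⟩

end Q56

open Q56 in
theorem st_QDE : St_QDE := by
  intro n W g b z hW hb ⟨k, h, hh, he⟩
  obtain ⟨C, hC⟩ := (bd_prod hW hh
    (fun a => bd_one hW (hh a) (he.mono fun y e => e.2 a)) Finset.univ).2
  obtain ⟨D, hD⟩ := ct_nq hW.self_of_nhds.1.adjugate hb
  refine ⟨2 * C + 2 * D, ?_⟩
  filter_upwards [hW, hC, hD, he.eventually_nhds] with y a c d e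
  have e0 : g =ᶠ[𝓝 y] fun y => ∏ a, h a y := e.mono fun w hw => hw.1
  have e1 : (fun j => dz j g y - g y * b y j) =
      (1 : ℂ) • gd (fun y => ∏ a, h a y) y + (-g y) • b y := by
    funext j
    simp only [gd, dz_congr e0, Pi.add_apply, Pi.smul_apply, smul_eq_mul]
    ring
  rw [tr_eq, e1]
  have := nq_comb (adj_psd a.2) 1 (-g y) (gd (fun y => ∏ a, h a y) y) (b y)
  rw [normSq_one, normSq_neg] at this
  rw [← e.self_of_nhds.1] at c
  nlinarith [mul_le_mul_of_nonneg_left d (normSq_nonneg (g y))]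

end Pool.Agent.Lib.AP14
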