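import Pool.Agent.Lib.AP14.B_QDE
import Pool.Agent.Lib.KP.B_NHS

/-! Project ra2, row QUAD: the quadratic bound. -/

open scoped Classical Topology ContDiff ComplexOrder Matrix
open Set Complex Metric Filter

noncomputable section

namespace Pool.Agent.Lib.AP14

open Pool.Agent.Lib.SV (E)
open Pool.Agent.Lib.HS32 Pool.Agent.Lib.HS32.Mf

namespace Q56

variable {n : ℕ} {M : Mf n}

/-- The pairing of an adjugate with a tensor does not depend on the chart. -/
theorem pq_inv {G Y T : M.Fam (Mat n)} (hG : M.Met G) (hY : M.Ten Y) (hT : M.Ten T) :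
    M.Inv fun e z => (((Y e z).adjugate * T e z).trace / (G e z).det).re := by
  intro e he e' he' x hx hx'
  have hJ := ((mTR n M).2.1 e he e' he' x hx hx').2.1
  have hJ' : (M.J e e' x)ᴴ.det ≠ 0 := by rw [Matrix.det_conjTranspose]; exact star_ne_zero.2 hJ
  have e1 : (((M.J e e' x)ᴴ * Y e (e x) * M.J e e' x).adjugate *
      ((M.J e e' x)ᴴ * T e (e x) * M.J e e' x)).trace =
      (M.J e e' x)ᴴ.det * (M.J e e' x).det * ((Y e (e x)).adjugate * T e (e x)).trace := by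
    rw [Matrix.adjugate_mul_distrib, Matrix.adjugate_mul_distrib, ← Matrix.mul_assoc _ _ (M.J e e' x),
      Matrix.trace_mul_comm, ← Matrix.mul_assoc, ← Matrix.mul_assoc, ← Matrix.mul_assoc,
      Matrix.mul_adjugate, Matrix.mul_assoc _ _ (M.J e e' x)ᴴ, Matrix.mul_assoc _ _ (M.J e e' x)ᴴ,
      Matrix.adjugate_mul]
    simp only [Matrix.smul_mul, Matrix.mul_smul, Matrix.one_mul, Matrix.mul_one, Matrix.trace_smul,
      smul_eq_mul]
    ring
  beta_reduce
  rw [hY.cmp e he e' he' x hx hx', hT.cmp e he e' he' x hx hx', hG.cmp e he e' he' x hx hx', e1,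
    Matrix.det_mul, Matrix.det_mul]
  congr 1
  field_simp

theorem pq_at {G Y T : M.Fam (Mat n)} (hG : M.Met G) (hY : M.Ten Y) (hT : M.Ten T) {e : M.Ch}
    (he : e ∈ M.C) {x : M.X} (hx : x ∈ e.source) : pq M G (ad M Y) T x =
      (((Y e (e x)).adjugate * T e (e x)).trace / (G e (e x)).det).re :=
  (pq_inv hG hY hT).rep.at he hx

theorem xi_ten {L : M.Co} {g : M.Fam ℂ} {φ : M.Fam ℝ} (hg : M.SecC L g) (hφ : M.WtC L φ) :
    M.Form (xi M (M.nrC φ g) (M.hw φ)) :=
  ((mHES n M).1 _ (hφ.nr_sm hg)).toForm.add (hφ.clo.toForm.fsmul (hφ.nr_sm hg))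

theorem xi_eq {L : M.Co} {g : M.Fam ℂ} {φ : M.Fam ℝ} (hg : M.HSecC L g) (hφ : M.WtC L φ) :
    M.All fun e z => xi M (M.nrC φ g) (M.hw φ) e z =
      Real.exp (-φ e z) • Matrix.vecMulVec (star (M.cv φ g e z)) (M.cv φ g e z) := by
  intro e he z hz
  change M.hs (M.nrC φ g) e z + M.nrC φ g (e.symm z) • M.hw φ e z = _
  rw [(KP.st_NHS n M L g φ hg hφ e he z hz).1, sub_add_cancel]

theorem glob [M.Cpt] {f N : M.X → ℝ} (h0 : ∀ x, 0 ≤ N x)
    (h : ∀ x, ∃ C : ℝ, ∀ᶠ y in 𝓝 x, f y ≤ C * N y) : ∃ C : ℝ, 0 ≤ C ∧ ∀ x, f x ≤ C * N x := by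
  choose C hC using h
  obtain ⟨t, -, ht⟩ := isCompact_univ.elim_nhds_subcover (fun x => {y | f y ≤ C x * N y})
    fun x _ => hC x
  refine ⟨∑ a ∈ t, |C a|, Finset.sum_nonneg fun _ _ => abs_nonneg _, fun x => ?_⟩
  obtain ⟨a, ha, hx⟩ := mem_iUnion₂.1 (ht (mem_univ x))
  exact le_trans hx (mul_le_mul_of_nonneg_right ((le_abs_self _).trans
    (Finset.single_le_sum (f := fun a => |C a|) (fun _ _ => abs_nonneg _) ha)) (h0 x))

end Q56

open Q56 in
theorem st_QUAD : St_QUAD := by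
  intro n M _ G Y L g φ hG hY h0 hg hφ hE
  refine glob (nrC_nonneg φ g) fun x => ?_
  obtain ⟨e, he, hx, hA⟩ := hE x
  have hz := e.map_source hx
  obtain ⟨C, hC⟩ := st_QDE n (Y e) (g e) (fun y j => dz j (fun w => (φ e w : ℂ)) y) (e x)
    ((AllOn.ev hY.sm he hz).and ((AllOn.ev h0 he hz).mono fun y hy => by simpa using hy))
    (continuousAt_pi.2 fun j => (cd_dz (hφ.smC e he _ hz) j).continuousAt) hA
  have c1 : ContinuousAt (fun y => ((G e y).det.re)⁻¹) (e x) :=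
    (cd_re (hG.sm e he _ hz).det).continuousAt.inv₀ (pd_det_re (hG.pos e he _ hz)).ne'
  refine ⟨|C| * (((G e (e x)).det.re)⁻¹ + 1), ?_⟩
  filter_upwards [e.open_source.mem_nhds hx, (e.continuousAt hx).eventually hC,
    (e.continuousAt hx).eventually (c1.eventually (eventually_le_nhds (lt_add_one _)))]
    with y a b c
  have hy := e.map_source a
  have p := hG.pos e he _ hy
  rw [pq_at hG hY.toTen (xi_ten hg.toSecC hφ).toTen he a, xi_eq hg hφ e he _ hy,
    (hφ.nr_rep hg.toSecC).at he a, ← herm_det p.1, div_ofReal_re, Matrix.mul_smul,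
    Matrix.trace_smul, smul_re, smul_eq_mul, div_eq_mul_inv]
  have b' : ((Y e (e y)).adjugate * Matrix.vecMulVec (star (M.cv φ g e (e y)))
      (M.cv φ g e (e y))).trace.re ≤ |C| * normSq (g e (e y)) :=
    le_trans b (mul_le_mul_of_nonneg_right (le_abs_self _) (normSq_nonneg _))
  have q := inv_pos.2 (pd_det_re p)
  have r := Real.exp_pos (-φ e (e y))
  calc _ ≤ Real.exp (-φ e (e y)) * (|C| * normSq (g e (e y))) * ((G e (e y)).det.re)⁻¹ := by
        gcongr
    _ ≤ Real.exp (-φ e (e y)) * (|C| * normSq (g e (e y))) * (((G e (e x)).det.re)⁻¹ + 1) :=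
        mul_le_mul_of_nonneg_left c (mul_nonneg r.le (mul_nonneg (abs_nonneg _) (normSq_nonneg _)))
    _ = _ := by ring

end Pool.Agent.Lib.AP14
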