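import Pool.Agent.Lib.AP14.K1
import Pool.Agent.Lib.KP.Blue
import Pool.Agent.Lib.KP.Kit

/-! Project ra2, step A: objects and statements that do not depend on the analytic weight. -/

open scoped Classical Topology ContDiff ComplexOrder Matrix
open Set MeasureTheory Complex Metric Filter

set_option linter.unusedVariables false

noncomputable section

namespace Pool.Agent.Lib.AP14

open Pool.Agent.Lib.SV (E)
open Pool.Agent.Lib.HS32

section defs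

variable {n : ℕ}

/-- Every Kaehler class above `η` has metrics whose Ricci curvature is bounded below up to an
error whose mass is at most that of `θ`. -/
def AY (M : Mf n) (η θ : M.Fam (Mat n)) : Prop :=
  ∀ T, M.Kae T → M.Le η T → ∀ τ : ℝ, 0 < τ → ∃ u P, M.Sm u ∧ M.Kae (T + M.hs u) ∧ M.Form P ∧
    M.Le 0 P ∧ M.Le 0 (T + M.hs u + M.ric (T + M.hs u) + P) ∧
    ∫ x, M.tr (T + M.hs u) P x ∂M.mu (T + M.hs u) ≤ ∫ x, M.tr T θ x ∂M.mu T + τ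

/-- The top coefficient of the adjugate. -/
def tS (M : Mf n) (r : ℕ) (G η : M.Fam (Mat n)) : M.Fam (Mat n) :=
  fun e z => RA28.topS r (G e z) (η e z)

/-- The mass of `θ` tends to zero when the metric degenerates to `Y`. -/
def Sml (M : Mf n) (r : ℕ) (G Y η θ : M.Fam (Mat n)) : Prop :=
  ∃ K : ℝ, ∀ t ∈ Ioc (0 : ℝ) 1, ∫ x, pq M G (tS M r (Y + t • G) η) θ x ∂M.mu G ≤ K * t

/-- Near `z` the function `g` is a product of functions with smooth zero sets on which `W` is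
degenerate. -/
def ExcAt (W : E n → Mat n) (g : E n → ℂ) (z : E n) : Prop :=
  ∃ (k : ℕ) (h : Fin k → E n → ℂ), (∀ a, HolN (h a) z) ∧ ∀ᶠ y in 𝓝 z, g y = ∏ a, h a y ∧
    ∀ a, h a y = 0 → fderiv ℂ (h a) y ≠ 0 ∧ ∃ v, v ≠ 0 ∧ fderiv ℂ (h a) y v = 0 ∧ nq (W y) v = 0

/-- The divisor of `g` is exceptional for `Y`. -/
def Exc (M : Mf n) (Y : M.Fam (Mat n)) (g : M.Fam ℂ) : Prop :=
  ∀ x, ∃ e ∈ M.C, x ∈ e.source ∧ ExcAt (Y e) (g e) (e x)

/-- The square of the covariant derivative of a section with norm `N` and curvature `θ`. -/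
def xi (M : Mf n) (N : M.X → ℝ) (θ : M.Fam (Mat n)) : M.Fam (Mat n) :=
  M.hs N + fun e z => N (e.symm z) • θ e z

end defs

/-- The error term. -/
def St_ERR : Prop := ∀ (n : ℕ) (M : Mf n) [M.Cpt] (T : M.Fam (Mat n)) (N : M.X → ℝ)
  (C C₁ C₃ t p τ : ℝ), M.Kae T → Lg M T N C → 0 < t → 1 < p → 0 < τ → ∃ d₀ : ℝ, 0 < d₀ ∧
    ∀ d ∈ Ioc 0 d₀, ∀ u F, M.Sm u → M.Sm F → M.Kae (T + M.hs u) →
      (∀ x, M.dq T (T + M.hs u) x = Real.exp (t * u x + F x)) → (∀ x, u x ≤ C₁) →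
      ∫ x, Real.exp (p * F x) ∂M.mu T ≤ C₃ →
      ∫ x, d / (N x + d) * M.tr (T + M.hs u) T x ∂M.mu (T + M.hs u) ≤ τ

/-- The twisted metrics of Aubin. -/
def St_AYP : Prop := ∀ (n m : ℕ) (M : Mf n) [M.Cpt] (LB LE : M.Co) (f g : M.Fam ℂ)
  (φ φB φE : M.Fam ℝ) (c : ℝ), 0 < n → 0 < m → M.HSecC LB f → M.HSecC LE g → M.WtC LB φB →
  M.WtC LE φE → (M.All fun e z => ContDiffAt ℝ ∞ (φ e) z) → M.Wt m (φ - φB + φE) → 1 / m < c →
  M.Lct f c → (∃ x, M.ev g x ≠ 0) → AY M (M.hw φ) ((1 / m : ℝ) • M.hw φE)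

/-- Inequalities for adjugates. -/
def St_ADJ : Prop := ∀ (n r : ℕ) (G W B : Mat n) (K t : ℝ), G.PosDef → B.PosSemidef →
  (W - B).PosSemidef → (K • G - W).PosSemidef → B.rank ≤ r → 0 ≤ K → t ∈ Ioc (0 : ℝ) 1 →
  (RA28.topS r (W + t • G) B).PosSemidef ∧
  ((2 ^ n : ℝ) • (W + t • G).adjugate - RA28.topS r (W + t • G) B).PosSemidef ∧
  (W.adjugate + (t * (1 + K) ^ n) • G.adjugate - (W + t • G).adjugate).PosSemidef ∧
  (((1 + K) ^ n) • G.adjugate - (W + t • G).adjugate).PosSemidef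

/-- The quadratic bound in coordinates. -/
def St_QDE : Prop := ∀ (n : ℕ) (W : E n → Mat n) (g : E n → ℂ) (b : E n → E n) (z : E n),
  (∀ᶠ y in 𝓝 z, SmM W y ∧ (W y).PosSemidef) → ContinuousAt b z → ExcAt W g z →
  ∃ C : ℝ, ∀ᶠ y in 𝓝 z, ((W y).adjugate * Matrix.vecMulVec (star fun j => dz j g y - g y * b y j)
    fun j => dz j g y - g y * b y j).trace.re ≤ C * normSq (g y)

/-- The quadratic bound. -/
def St_QUAD : Prop := ∀ (n : ℕ) (M : Mf n) [M.Cpt] (G Y : M.Fam (Mat n)) (L : M.Co) (g : M.Fam ℂ)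
  (φ : M.Fam ℝ), M.Met G → M.Form Y → M.Le 0 Y → M.HSecC L g → M.WtC L φ → Exc M Y g →
  ∃ C : ℝ, 0 ≤ C ∧ ∀ x, pq M G (ad M Y) (xi M (M.nrC φ g) (M.hw φ)) x ≤ C * M.nrC φ g x

/-- An exceptional divisor has small mass. -/
def St_PL0 : Prop := ∀ (n r : ℕ) (M : Mf n) [M.Cpt] (G Y η : M.Fam (Mat n)) (L : M.Co)
  (g : M.Fam ℂ) (φ : M.Fam ℝ) (s : ℝ), M.Kae G → M.Clo Y → M.Clo η → M.Le 0 η → M.Le η Y →
  (M.All fun e z => (η e z).rank ≤ r) → M.HSecC L g → M.WtC L φ → 0 ≤ s → (∃ x, M.ev g x ≠ 0) →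
  Exc M Y g → Sml M r G Y η (s • M.hw φ)

end Pool.Agent.Lib.AP14
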