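import Pool.Agent.Lib.AP14.Blue
import Pool.Agent.Lib.RAA.Blue

/-! Project ra2, step A: statements of the blocks that use the analytic weight. -/

open scoped Classical Topology ContDiff ComplexOrder Matrix ENNReal
open Set MeasureTheory Complex Metric Filter

set_option linter.unusedVariables false

noncomputable section

namespace Pool.Agent.Lib.AP14

open Pool.Agent.Lib.SV (E)
open Pool.Agent.Lib.HS32 Pool.Agent.Lib.RA Pool.Agent.Lib.RAA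

/-- The curvature of the norm of a covariant tensor, with an error term. -/
def St_A4s : Prop := ∀ (n ρ : ℕ) (T : E n → Mat n) (P : Mat n) (s : E n → (Fin ρ → Fin n) → ℂ)
  (z : E n), SmM T z → (∀ᶠ w in 𝓝 z, (T w).PosDef) → HolN s z → s z ≠ 0 →
  (∀ᶠ w in 𝓝 z, SmM T w ∧ ClM T w) → P.PosSemidef → (T z - hess (ld T) z + P).PosSemidef →
  -(ρ * ((T z).det.re + tp (T z).adjugate P)) ≤ tp (T z).adjugate (hl (un ρ T s) z)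

/-- The inequality for one metric. -/
def St_A6r : Prop := ∀ (n ρ : ℕ) (M : Mf n) [M.Cpt] (G T P q : M.Fam (Mat n)) (V : M.Cov)
  (σ : Fin V.r → E n → (Fin ρ → Fin n) → ℂ) (C : ℝ), M.Kae G → M.Kae T → M.Form P → M.Le 0 P →
  M.Le 0 (T + M.ric T + P) → Ln M V ρ σ → Cq M V ρ σ G q → QF M V σ (C • G + q) →
  C * ∫ x, pa M G (aj M T) G x ∂M.mu G - ρ * ∫ x, M.dq G T x ∂M.mu G -
    ρ * ∫ x, pa M G (aj M T) P x ∂M.mu G ≤ ∫ x, pa M G (aj M T) (C • G + q) x ∂M.mu G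

/-- The inequality for the classes above `η`. -/
def St_A6c : Prop := ∀ (n ρ : ℕ) (M : Mf n) [M.Cpt] (G T η θ q : M.Fam (Mat n)) (V : M.Cov)
  (σ : Fin V.r → E n → (Fin ρ → Fin n) → ℂ) (C : ℝ), M.Kae G → M.Kae T → M.Le η T → AY M η θ →
  Ln M V ρ σ → Cq M V ρ σ G q → QF M V σ (C • G + q) →
  C * ∫ x, pa M G (aj M T) G x ∂M.mu G - ρ * ∫ x, M.dq G T x ∂M.mu G -
    ρ * ∫ x, pa M G (aj M T) θ x ∂M.mu G ≤ ∫ x, pa M G (aj M T) (C • G + q) x ∂M.mu G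

/-- The limit. -/
def St_A6d : Prop := ∀ (n r ρ : ℕ) (M : Mf n) [M.Cpt] (G θ q : M.Fam (Mat n)) (φ : M.Fam ℝ)
  (V : M.Cov) (σ : Fin V.r → E n → (Fin ρ → Fin n) → ℂ) (C : ℝ), r < n → Su M G φ r → 0 < C →
  M.Clo θ → AY M (M.hw φ) θ → Ln M V ρ σ → Cq M V ρ σ G q → QF M V σ (C • G + q) →
  Integrable (pa M G (tA M r G (M.hw φ)) (C • G + q)) (M.mu G) ∧
  (∀ x ∈ gd M V σ, 0 ≤ pa M G (tA M r G (M.hw φ)) (C • G + q) x) ∧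
  C * ∫ x, pa M G (tA M r G (M.hw φ)) G x ∂M.mu G -
    ρ * ∫ x, pa M G (tA M r G (M.hw φ)) θ x ∂M.mu G ≤
    ∫ x, pa M G (tA M r G (M.hw φ)) (C • G + q) x ∂M.mu G

/-- The defect has small mass. -/
def St_EQ : Prop := ∀ (n r ρ m : ℕ) (M : Mf n) [M.Cpt] (G θ q : M.Fam (Mat n)) (φ : M.Fam ℝ)
  (f : M.X → ℝ) (V : M.Cov) (F : Fin V.r → E n × E n → ℂ)
  (σ : Fin V.r → E n → (Fin ρ → Fin n) → ℂ) (C : ℝ), r < n → Su M G φ r → Od M φ ρ m →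
  Fn M G φ r ρ m f → Hl M φ V ρ F σ → 0 < C → Cq M V ρ σ G q → QF M V σ (C • G + q) →
  M.Clo θ → AY M (M.hw φ) θ →
  ∫⁻ x, ENNReal.ofReal (pa M G (tA M r G (M.hw φ)) (hg M f - q) x) ∂M.mu G ≤
    ENNReal.ofReal (ρ * ∫ x, pa M G (tA M r G (M.hw φ)) θ x ∂M.mu G)

/-- The defect does not depend on the metric. -/
def St_IND : Prop := ∀ (n r ρ m : ℕ) (M : Mf n) [M.Cpt] (G G' q q' : M.Fam (Mat n)) (φ : M.Fam ℝ)
  (f f' : M.X → ℝ) (V : M.Cov) (F : Fin V.r → E n × E n → ℂ)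
  (σ : Fin V.r → E n → (Fin ρ → Fin n) → ℂ), Su M G φ r → Su M G' φ r → Od M φ ρ m →
  Fn M G φ r ρ m f → Fn M G' φ r ρ m f' → Hl M φ V ρ F σ → Cq M V ρ σ G q → Cq M V ρ σ G' q' →
  ∀ x ∈ gd M V σ, x ∈ X0 M (M.hw φ) r → f x ≠ 0 →
    f' x ≠ 0 ∧ M.ev (hg M f' - q') x = M.ev (hg M f - q) x

/-- The key inequality for an arbitrary positive matrix. -/
def St_POS : Prop := ∀ (n r ρ m : ℕ) (M : Mf n) [M.Cpt] (G q : M.Fam (Mat n)) (φ : M.Fam ℝ)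
  (f : M.X → ℝ) (V : M.Cov) (F : Fin V.r → E n × E n → ℂ)
  (σ : Fin V.r → E n → (Fin ρ → Fin n) → ℂ), Su M G φ r → Od M φ ρ m → Fn M G φ r ρ m f →
  Hl M φ V ρ F σ → Cq M V ρ σ G q → ∀ a, ∀ z ∈ bl M V a, σ a z ≠ 0 →
  (V.e a).symm z ∈ X0 M (M.hw φ) r → f ((V.e a).symm z) ≠ 0 → ∀ Y : M.Fam (Mat n),
  (M.ev Y ((V.e a).symm z)).PosDef →
  0 ≤ pa M G (tA M r Y (M.hw φ)) (hg M f - q) ((V.e a).symm z) ∧
  (pa M G (tA M r Y (M.hw φ)) (hg M f - q) ((V.e a).symm z) = 0 →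
    ∀ J : Fin r → Fin n, (hJ (F a) J z).det ≠ 0 → ∀ v, Gm (F a) (dg z) *ᵥ v = 0 →
      al (F a) J z v = 0)

/-- The defect vanishes where the limit form is positive. -/
def St_LIMT : Prop := ∀ (n r ρ m : ℕ) (M : Mf n) [M.Cpt] (G Y θ q : M.Fam (Mat n)) (φ : M.Fam ℝ)
  (f : M.X → ℝ) (V : M.Cov) (F : Fin V.r → E n × E n → ℂ)
  (σ : Fin V.r → E n → (Fin ρ → Fin n) → ℂ), r < n → Su M G φ r → Od M φ ρ m →
  Fn M G φ r ρ m f → Hl M φ V ρ F σ → Cq M V ρ σ G q → M.Clo θ → AY M (M.hw φ) θ → M.Clo Y →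
  M.Le 0 Y → Sml M r G Y (M.hw φ) θ →
  ∀ x ∈ gd M V σ, x ∈ X0 M (M.hw φ) r → f x ≠ 0 → (M.ev Y x).PosDef →
    pa M G (tA M r Y (M.hw φ)) (hg M f - q) x = 0

/-- Step A. -/
def St_A0 : Prop := ∀ (n : ℕ) (M : Mf n) [M.Cpt] (G Y θ : M.Fam (Mat n)) (φ : M.Fam ℝ) (r : ℕ),
  Su M G φ r → r < n → M.Clo θ → AY M (M.hw φ) θ → M.Clo Y → M.Le 0 Y →
  (∃ x, (M.ev Y x).PosDef) → Sml M r G Y (M.hw φ) θ → HF M φ r

end Pool.Agent.Lib.AP14
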