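import Pool.Agent.Lib.HS32.MAll
import Pool.Agent.Lib.HS32.MKit
import Pool.Agent.Lib.RAA.T_TOP

/-! Project ra2, step A: integral estimates for twisted equations. -/

open scoped Classical Topology ContDiff ComplexOrder Matrix
open Set MeasureTheory Complex Metric Filter

set_option linter.unusedVariables false

noncomputable section

namespace Pool.Agent.Lib.AP14

open Pool.Agent.Lib.SV (E)
open Pool.Agent.Lib.HS32 Pool.Agent.Lib.HS32.Mf

variable {n : ℕ} {M : Mf n}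

/-- The pairing of a density and a tensor. -/
def pq (M : Mf n) (G A T : M.Fam (Mat n)) (x : M.X) : ℝ :=
  ((M.ev A x * M.ev T x).trace / (M.ev G x).det).re

/-- The adjugate. -/
def ad (M : Mf n) (T : M.Fam (Mat n)) : M.Fam (Mat n) := fun e z => (T e z).adjugate

/-- A smooth function whose regularised logarithms are quasi-plurisubharmonic. -/
structure Lg (M : Mf n) (G : M.Fam (Mat n)) (N : M.X → ℝ) (C : ℝ) : Prop where
  c0 : 0 ≤ C
  sm : M.Sm N
  nn : ∀ x, 0 ≤ N x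
  ex : ∃ x, N x ≠ 0
  psh : ∀ d : ℝ, 0 < d → M.Le 0 (C • G + M.hs fun x => Real.log (N x + d))

theorem intg [M.Cpt] {G : M.Fam (Mat n)} (hG : M.Met G) {f : M.X → ℝ} (hf : Continuous f) :
    Integrable f (M.mu G) := (mMU n M G hG).2.2.2.2.1 ℝ f hf

theorem chg [M.Cpt] {G T : M.Fam (Mat n)} (hG : M.Met G) (hT : M.Met T) (f : M.X → ℝ) :
    ∫ x, f x ∂M.mu T = ∫ x, M.dq G T x * f x ∂M.mu G :=
  ((mMU n M G hG).2.2.2.2.2.2 T hT).2.1 f

theorem pq_ad {G T : M.Fam (Mat n)} (hG : M.Met G) (hT : M.Met T) (Q : M.Fam (Mat n)) (x : M.X) :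
    pq M G (ad M T) Q x = M.dq G T x * M.tr T Q x := by
  have h1 := hG.ev_pos x
  have h2 := hT.ev_pos x
  have e : M.ev (ad M T) x = (M.ev T x).det • (M.ev T x)⁻¹ := by
    rw [Matrix.inv_def, smul_smul, Ring.inverse_eq_inv', mul_inv_cancel₀ (hT.ev_det x), one_smul]
    rfl
  rw [pq, e, Mf.dq, Mf.tr, Matrix.smul_mul, Matrix.trace_smul, smul_eq_mul, mul_div_right_comm,
    ← Mf.herm_det h1.1, ← Mf.herm_det h2.1, ← ofReal_div, re_ofReal_mul, ofReal_re]

theorem sm_tr {G T : M.Fam (Mat n)} (hG : M.Met G) (hT : M.Ten T) : M.Sm (M.tr G T) :=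
  ((mINV n M G hG).1 T hT).2.1

theorem sm_dq {G T : M.Fam (Mat n)} (hG : M.Met G) (hT : M.Ten T) : M.Sm (M.dq G T) :=
  ((mINV n M G hG).1 T hT).2.2.2.1

theorem vol_eq [M.Cpt] {T : M.Fam (Mat n)} {u : M.X → ℝ} (hT : M.Kae T) (hu : M.Sm u)
    (h1 : M.Kae (T + M.hs u)) : ∫ x, M.dq T (T + M.hs u) x ∂M.mu T = (M.mu T).real univ := by
  have := (mMU n M T hT.toMet).2.1
  rw [mCOH n M T T u hT.toMet hT.toClo hu]
  simp [hT.toMet.dq_self]

/-- The mixed volume depends only on the class. -/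
theorem coh1 [M.Cpt] {T θ : M.Fam (Mat n)} {u : M.X → ℝ} (hT : M.Kae T) (hu : M.Sm u)
    (h1 : M.Kae (T + M.hs u)) (hθ : M.Clo θ) :
    ∫ x, M.tr (T + M.hs u) θ x ∂M.mu (T + M.hs u) = ∫ x, M.tr T θ x ∂M.mu T := by
  obtain ⟨γ, hγ⟩ := RAA.TTop.nodes n 1
  have key : ∀ S, M.Met S → ∀ x, M.dq T S x * M.tr S θ x =
      ∑ l : Fin (n + 1), γ l * M.dq T (S + ((l : ℕ) : ℝ) • θ) x := fun S hS x => by
    rw [← pq_ad hT.toMet hS, pq]
    have := (hγ (M.ev S x) (M.ev θ x)).2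
    rw [RAA.TTop.cd_one] at this
    change (((M.ev S x).adjugate * M.ev θ x).trace / _).re = _
    rw [this, Finset.sum_div, re_sum]
    refine Finset.sum_congr rfl fun l _ => ?_
    rw [real_smul, mul_div_assoc, re_ofReal_mul]
    rfl
  have ci : ∀ S, M.Clo S → ∀ l : Fin (n + 1), Integrable
      (fun x => γ l * M.dq T (S + ((l : ℕ) : ℝ) • θ) x) (M.mu T) := fun S hS l =>
    (intg hT.toMet (sm_dq hT.toMet (hS.add (hθ.smul _)).toTen).continuous).const_mul _
  rw [chg hT.toMet h1.toMet, chg hT.toMet hT.toMet (M.tr T θ)]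
  simp only [key _ h1.toMet, key _ hT.toMet]
  rw [integral_finsetSum _ fun l _ => ci _ h1.toClo l,
    integral_finsetSum _ fun l _ => ci _ hT.toClo l]
  refine Finset.sum_congr rfl fun l _ => ?_
  rw [integral_const_mul, integral_const_mul, add_right_comm,
    mCOH n M T _ u hT.toMet (hT.toClo.add (hθ.smul _)) hu]

theorem sm_lg {N : M.X → ℝ} (hN : M.Sm N) (h0 : ∀ x, 0 ≤ N x) {d : ℝ} (hd : 0 < d) :
    M.Sm fun x => Real.log (N x + d) :=
  (hN.add (sm_const d)).log fun x => (add_pos_of_nonneg_of_pos (h0 x) hd).ne'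

/-- The mean value controls the maximum. -/
theorem max_le [M.Cpt] {G : M.Fam (Mat n)} (hG : M.Met G) (C₀ : ℝ) : ∃ C : ℝ, ∀ u, M.Sm u →
    M.Le 0 (C₀ • G + M.hs u) → ∀ x, u x * (M.mu G).real univ ≤ ∫ y, u y ∂M.mu G + C := by
  obtain ⟨C, -, h, -⟩ := mPSH n M G C₀ hG
  refine ⟨C, fun u hu hp x => ?_⟩
  have := (mMU n M G hG).2.1
  obtain ⟨x₁, hx⟩ := hu.exists_max
  have h1 := h (fun y => u y - u x₁) (hu.sub (sm_const _)) (hp.congr (fun _ _ _ _ => rfl)
    fun e he z hz => by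
      have a := (mLAP n M u _ hu (sm_const (u x₁))).1 (u x₁) e he z hz
      simp only [Pi.add_apply, a.2.2.1, a.1, sub_zero]) (fun y => sub_nonpos.2 (hx y))
    ⟨x₁, sub_self _⟩
  rw [integral_sub (intg hG hu.continuous) (integrable_const _), integral_const, smul_eq_mul] at h1
  have h2 := mul_le_mul_of_nonneg_right (hx x) (measureReal_nonneg (μ := M.mu G) (s := univ))
  linarith

theorem Lg.low [M.Cpt] {G : M.Fam (Mat n)} {N : M.X → ℝ} {C : ℝ} (h : Lg M G N C)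
    (hG : M.Met G) : ∃ B : ℝ, ∀ d : ℝ, 0 < d → -B ≤ ∫ x, Real.log (N x + d) ∂M.mu G := by
  obtain ⟨B, hB⟩ := max_le hG C
  obtain ⟨x, hx⟩ := h.ex
  refine ⟨B - Real.log (N x) * (M.mu G).real univ, fun d hd => ?_⟩
  have h1 := hB _ (sm_lg h.sm h.nn hd) (h.psh d hd) x
  have h2 : Real.log (N x) ≤ Real.log (N x + d) :=
    Real.log_le_log ((h.nn x).lt_of_ne' hx) (by linarith)
  have h3 := mul_le_mul_of_nonneg_right h2 (measureReal_nonneg (μ := M.mu G) (s := univ))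
  linarith

/-- The upper bound for solutions. -/
theorem sup_le [M.Cpt] {T : M.Fam (Mat n)} (hT : M.Kae T) {t : ℝ} (ht : 0 < t) (B : ℝ) :
    ∃ C : ℝ, ∀ u F, M.Sm u → M.Sm F → M.Kae (T + M.hs u) →
      (∀ x, M.dq T (T + M.hs u) x = Real.exp (t * u x + F x)) → -B ≤ ∫ x, F x ∂M.mu T →
      ∀ x, u x ≤ C := by
  obtain ⟨C, hC⟩ := max_le hT.toMet 1
  have hV := (mMU n M T hT.toMet).2.2.2.1
  refine ⟨(((M.mu T).real univ + B) / t + C) / (M.mu T).real univ,
    fun u F hu hF h1 hq hB x => ?_⟩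
  have h2 := hC u hu (by rw [one_smul]; exact h1.toMet.nonneg) x
  have iu := intg hT.toMet hu.continuous
  have h3 : ∫ y, (t * u y + F y) ∂M.mu T ≤ ∫ y, M.dq T (T + M.hs u) y ∂M.mu T :=
    integral_mono ((iu.const_mul t).add (intg hT.toMet hF.continuous))
      (intg hT.toMet (sm_dq hT.toMet h1.toTen).continuous) fun y => by
        beta_reduce
        rw [hq]
        linarith [Real.add_one_le_exp (t * u y + F y)]
  rw [vol_eq hT hu h1, integral_add (iu.const_mul t) (intg hT.toMet hF.continuous),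
    integral_const_mul] at h3
  have h4 : ∫ y, u y ∂M.mu T ≤ ((M.mu T).real univ + B) / t := by
    rw [le_div_iff₀' ht]; linarith
  rw [le_div_iff₀ hV]
  linarith

end Pool.Agent.Lib.AP14
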